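import Pool.Agent.Lib.MP_4f753b_an.Defs

/-! Row A0: calculus of local diffeomorphisms and of diffeomorphisms with compact support. -/

open Set Metric Filter
open scoped ContDiff Topology

namespace Pool.Agent.TopCells

variable {V : Type} [NormedAddCommGroup V] [InnerProductSpace ℝ V]

theorem LD.contDiffAt {f : V → V} {x : V} (hf : LD f x) : ContDiffAt ℝ ∞ f x :=
  hf.1.self_of_nhds

theorem LD.congr {f g : V → V} {x : V} (hf : LD f x) (h : g =ᶠ[𝓝 x] f) : LD g x := by
  obtain ⟨h1, A, h2⟩ := hf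
  refine ⟨?_, A, h2.congr_of_eventuallyEq h⟩
  filter_upwards [h1, h.eventually_nhds] with y hy1 hy2
  exact hy1.congr_of_eventuallyEq hy2

theorem LD.continuousAt {f : V → V} {x : V} (hf : LD f x) : ContinuousAt f x :=
  hf.contDiffAt.continuousAt

theorem LD.comp {f g : V → V} {x : V} (hf : LD f (g x)) (hg : LD g x) : LD (f ∘ g) x := by
  have hc := hg.continuousAt
  obtain ⟨h1, A, h2⟩ := hf
  obtain ⟨h3, B, h4⟩ := hg
  refine ⟨?_, B.trans A, ?_⟩
  · filter_upwards [h3, hc.eventually h1] with y hy1 hy2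
    exact hy2.comp y hy1
  · exact h2.comp x h4

theorem LD.comp' {f g : V → V} {x : V} (hf : LD f (g x)) (hg : LD g x) :
    LD (fun y => f (g y)) x := hf.comp hg

theorem LD.strict {f : V → V} {x : V} (hf : LD f x) :
    ∃ A : V ≃L[ℝ] V, HasStrictFDerivAt f (A : V →L[ℝ] V) x := by
  have h1 := hf.contDiffAt
  obtain ⟨_, A, h2⟩ := hf
  exact ⟨A, h1.hasStrictFDerivAt' h2 (by simp)⟩

theorem LD.id (x : V) : LD (fun y : V => y) x :=
  ⟨Eventually.of_forall fun _ => contDiffAt_id, ContinuousLinearEquiv.refl ℝ V, hasFDerivAt_id x⟩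

theorem LD.add_const (a x : V) : LD (fun y : V => y + a) x :=
  ⟨Eventually.of_forall fun _ => contDiffAt_id.add contDiffAt_const,
    ContinuousLinearEquiv.refl ℝ V, (hasFDerivAt_id x).add_const a⟩

/-- `x ↦ a + A (x - b)` has derivative `A`. -/
theorem LD.affine (A : V ≃L[ℝ] V) (a b x : V) : LD (fun y : V => a + A (y - b)) x := by
  refine ⟨Eventually.of_forall fun y => ?_, A, ?_⟩
  · exact contDiffAt_const.add (A.contDiff.contDiffAt.comp y (contDiffAt_id.sub contDiffAt_const))
  · have h := (A : V →L[ℝ] V).hasFDerivAt.comp x ((hasFDerivAt_id x).sub_const b)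
    have h2 := h.const_add a
    simpa using h2

theorem LD.of_isDiffeo {e : V ≃ₜ V} (h : IsDiffeo e) (x : V) : LD e x := by
  have h1 : HasFDerivAt e (fderiv ℝ e x) x := ((h.1.differentiable (by simp)) x).hasFDerivAt
  have h2 : HasFDerivAt e.symm (fderiv ℝ e.symm (e x)) (e x) :=
    ((h.2.differentiable (by simp)) (e x)).hasFDerivAt
  refine ⟨Eventually.of_forall fun y => h.1.contDiffAt,
    ContinuousLinearEquiv.equivOfInverse (fderiv ℝ e x) (fderiv ℝ e.symm (e x)) ?_ ?_, h1⟩
  · intro v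
    have h3 := h2.comp x h1
    have h4 : (e.symm : V → V) ∘ e = fun y => y := by funext y; simp
    rw [h4] at h3
    have h5 := h3.unique (hasFDerivAt_id x)
    exact congrArg (fun L : V →L[ℝ] V => L v) h5
  · intro v
    have h1' : HasFDerivAt e (fderiv ℝ e x) (e.symm (e x)) := by simpa using h1
    have h3 := h1'.comp (e x) h2
    have h4 : (e : V → V) ∘ e.symm = fun y => y := by funext y; simp
    rw [h4] at h3
    have h5 := h3.unique (hasFDerivAt_id (e x))
    exact congrArg (fun L : V →L[ℝ] V => L v) h5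

/-- Near a point where `f` is a local diffeomorphism it is one. -/
theorem LD.eventually [CompleteSpace V] {f : V → V} {x : V} (hf : LD f x) :
    ∀ᶠ y in 𝓝 x, LD f y := by
  have hc := hf.contDiffAt
  obtain ⟨h1, A, h2⟩ := hf
  have h3 : ContinuousAt (fderiv ℝ f) x :=
    (hc.fderiv_right (m := 0) (by simp)).continuousAt
  have h4 : {L : V →L[ℝ] V | ∃ B : V ≃L[ℝ] V, (B : V →L[ℝ] V) = L} ∈ 𝓝 (fderiv ℝ f x) := by
    rw [h2.fderiv]
    exact A.nhds
  filter_upwards [h1.eventually_nhds, h3.preimage_mem_nhds h4] with y hy1 hy2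
  refine ⟨hy1, ?_⟩
  obtain ⟨B, hB⟩ := hy2
  refine ⟨B, ?_⟩
  rw [hB]
  exact ((hy1.self_of_nhds).differentiableAt (by simp)).hasFDerivAt

/-- The set where `f` is a local diffeomorphism is open. -/
theorem isOpen_LD [CompleteSpace V] (f : V → V) : IsOpen {x | LD f x} :=
  isOpen_iff_mem_nhds.2 fun _ hx => LD.eventually hx

/-- Inverse of a homeomorphism which is a local diffeomorphism at a point. -/
theorem LD.symm [CompleteSpace V] {f : V ≃ₜ V} {x : V} (hf : LD f x) : LD f.symm (f x) := by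
  have key : ∀ z, LD f z → ContDiffAt ℝ ∞ f.symm (f z) ∧
      ∃ A : V ≃L[ℝ] V, HasFDerivAt f.symm (A : V →L[ℝ] V) (f z) := by
    intro z hz
    have h1 := hz.contDiffAt
    obtain ⟨_, A, h2⟩ := hz
    have hx : f.symm (f z) = z := f.symm_apply_apply z
    refine ⟨?_, A.symm, ?_⟩
    · have := (f.toOpenPartialHomeomorph).contDiffAt_symm (n := ∞) (f₀' := A) (a := f z)
        (by simp) (by simpa using h2) (by simpa using h1)
      simpa using this
    · have h3 : HasFDerivAt f (A : V →L[ℝ] V) (f.symm (f z)) := by rw [hx]; exact h2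
      exact h3.of_local_left_inverse (f.symm.continuous.continuousAt) (by
        filter_upwards with y using f.apply_symm_apply y)
  refine ⟨?_, (key x hf).2⟩
  have h5 : ∀ᶠ y in 𝓝 (f x), LD f (f.symm y) := by
    have h6 : Tendsto f.symm (𝓝 (f x)) (𝓝 x) := by
      have := f.symm.continuous.tendsto (f x)
      rwa [f.symm_apply_apply] at this
    exact h6.eventually hf.eventually
  filter_upwards [h5] with y hy
  have := (key (f.symm y) hy).1
  rwa [f.apply_symm_apply] at this

theorem LD.symm' [CompleteSpace V] {f : V ≃ₜ V} {y : V} (hf : LD f (f.symm y)) :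
    LD f.symm y := by
  have := LD.symm hf
  rwa [f.apply_symm_apply] at this

/-- A homeomorphism which is everywhere a local diffeomorphism is a diffeomorphism. -/
theorem isDiffeo_of_LD [CompleteSpace V] {e : V ≃ₜ V} (h : ∀ x, LD e x) : IsDiffeo e := by
  refine ⟨contDiff_iff_contDiffAt.2 fun x => (h x).contDiffAt,
    contDiff_iff_contDiffAt.2 fun y => ?_⟩
  exact (LD.symm' (h (e.symm y))).contDiffAt

theorem IsDiffeo.refl : IsDiffeo (Homeomorph.refl V) := ⟨contDiff_id, contDiff_id⟩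

theorem IsDiffeo.symm {e : V ≃ₜ V} (h : IsDiffeo e) : IsDiffeo e.symm := ⟨h.2, h.1⟩

theorem IsDiffeo.trans {e e' : V ≃ₜ V} (h : IsDiffeo e) (h' : IsDiffeo e') :
    IsDiffeo (e.trans e') := ⟨h'.1.comp h.1, h.2.comp h'.2⟩

theorem DiffIn.refl (S : Set V) : DiffIn S (Homeomorph.refl V) :=
  ⟨IsDiffeo.refl, ∅, isCompact_empty, empty_subset _, fun _ _ => rfl⟩

theorem DiffIn.mono {S S' : Set V} {e : V ≃ₜ V} (h : DiffIn S e) (hS : S ⊆ S') : DiffIn S' e := by
  obtain ⟨h1, K, h2, h3, h4⟩ := h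
  exact ⟨h1, K, h2, h3.trans hS, h4⟩

theorem DiffIn.id_off {S : Set V} {e : V ≃ₜ V} (h : DiffIn S e) {x : V} (hx : x ∉ S) :
    e x = x := by
  obtain ⟨_, K, _, h3, h4⟩ := h
  exact h4 x fun h => hx (h3 h)

theorem DiffIn.mem_iff {S : Set V} {e : V ≃ₜ V} (h : DiffIn S e) {x : V} :
    e x ∈ S ↔ x ∈ S := by
  constructor
  · intro h1
    by_contra h2
    rw [h.id_off h2] at h1
    exact h2 h1
  · intro h1
    by_contra h2
    have h3 := h.id_off h2
    have h4 := e.injective h3
    rw [h4] at h2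
    exact h2 h1

theorem DiffIn.symm {S : Set V} {e : V ≃ₜ V} (h : DiffIn S e) : DiffIn S e.symm := by
  obtain ⟨h1, K, h2, h3, h4⟩ := h
  refine ⟨h1.symm, K, h2, h3, fun x hx => ?_⟩
  rw [Homeomorph.symm_apply_eq, h4 x hx]

theorem DiffIn.trans {S : Set V} {e e' : V ≃ₜ V} (h : DiffIn S e) (h' : DiffIn S e') :
    DiffIn S (e.trans e') := by
  obtain ⟨h1, K, h2, h3, h4⟩ := h
  obtain ⟨h1', K', h2', h3', h4'⟩ := h'
  refine ⟨h1.trans h1', K ∪ K', h2.union h2', union_subset h3 h3', fun x hx => ?_⟩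
  rw [mem_union, not_or] at hx
  rw [Homeomorph.trans_apply, h4 x hx.1, h4' x hx.2]

end Pool.Agent.TopCells
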