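import Pool.Agent.Lib.MP_4f753b_an.A0

/-! Row A1: cut-off functions and small perturbations of the identity. -/

open Set Metric Filter
open scoped ContDiff Topology Manifold NNReal

namespace Pool.Agent.TopCells

variable {V : Type} [NormedAddCommGroup V] [InnerProductSpace ℝ V] [FiniteDimensional ℝ V]

/-- Cut-off: `χ = 1` near the compact set `K`, with compact support in the open set `S`. -/
theorem exists_cutoff {K S : Set V} (hK : IsCompact K) (hS : IsOpen S) (h : K ⊆ S) :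
    ∃ χ : V → ℝ, ContDiff ℝ ∞ χ ∧ (∀ᶠ x in 𝓝ˢ K, χ x = 1) ∧
      ∃ K' : Set V, IsCompact K' ∧ K' ⊆ S ∧ ∀ x, x ∉ K' → χ x = 0 := by
  obtain ⟨K', hK', h1, h2⟩ := exists_compact_between hK hS h
  obtain ⟨f, hf1, hf2, _⟩ := exists_contMDiffMap_one_nhds_of_subset_interior (n := (⊤ : ℕ∞)) 𝓘(ℝ, V)
    hK.isClosed h1
  exact ⟨f, f.contMDiff.contDiff, hf1, K', hK', h2, hf2⟩

/-- A perturbation of the identity by a `c`-Lipschitz smooth map, `c < 1`, is a diffeomorphism. -/
theorem exists_diffeo_add (w : V → V) (hw : ContDiff ℝ ∞ w) (c : ℝ≥0) (hc : c < 1)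
    (hl : LipschitzWith c w) : ∃ e : V ≃ₜ V, IsDiffeo e ∧ ∀ x, e x = x + w x := by
  have hap : ApproximatesLinearOn (fun x => x + w x)
      ((ContinuousLinearEquiv.refl ℝ V : V ≃L[ℝ] V) : V →L[ℝ] V) univ c := by
    intro x _ y _
    have e1 : (x + w x - (y + w y) -
        ((ContinuousLinearEquiv.refl ℝ V : V ≃L[ℝ] V) : V →L[ℝ] V) (x - y)) = w x - w y := by
      simp only [ContinuousLinearEquiv.coe_coe, ContinuousLinearEquiv.coe_refl', id_eq]
      abel
    rw [e1]
    have := hl.dist_le_mul x y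
    rwa [dist_eq_norm, dist_eq_norm] at this
  have hN : Subsingleton V ∨ c < ‖((ContinuousLinearEquiv.refl ℝ V : V ≃L[ℝ] V).symm :
      V →L[ℝ] V)‖₊⁻¹ := by
    rcases subsingleton_or_nontrivial V with h | h
    · exact Or.inl h
    · right
      have e2 : ‖((ContinuousLinearEquiv.refl ℝ V : V ≃L[ℝ] V).symm : V →L[ℝ] V)‖₊ = 1 := by
        have : ((ContinuousLinearEquiv.refl ℝ V : V ≃L[ℝ] V).symm : V →L[ℝ] V) =
            ContinuousLinearMap.id ℝ V := rfl
        rw [this]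
        ext
        simp
      rw [e2, inv_one]
      exact hc
  let e : V ≃ₜ V := hap.toHomeomorph _ hN
  have he : ∀ x, e x = x + w x := fun x => rfl
  refine ⟨e, isDiffeo_of_LD ?_, he⟩
  intro x
  have hd : HasFDerivAt w (fderiv ℝ w x) x := ((hw.differentiable (by simp)) x).hasFDerivAt
  have hn : ‖fderiv ℝ w x‖ ≤ c := norm_fderiv_le_of_lipschitz ℝ hl
  have hn' : ‖-fderiv ℝ w x‖ < 1 := by
    rw [norm_neg]
    exact lt_of_le_of_lt hn (by exact_mod_cast hc)
  refine ⟨Eventually.of_forall fun y => ?_, ?_⟩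
  · have : (e : V → V) = fun x => x + w x := funext he
    rw [this]
    exact (contDiff_id.add hw).contDiffAt
  · let U : (V →L[ℝ] V)ˣ := Units.oneSub (-fderiv ℝ w x) hn'
    refine ⟨ContinuousLinearEquiv.unitsEquiv ℝ V U, ?_⟩
    have h1 : ((ContinuousLinearEquiv.unitsEquiv ℝ V U : V ≃L[ℝ] V) : V →L[ℝ] V) =
        ContinuousLinearMap.id ℝ V + fderiv ℝ w x := by
      ext v
      simp [U, Units.oneSub]
    rw [h1]
    have : (e : V → V) = fun x => x + w x := funext he
    rw [this]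
    exact (hasFDerivAt_id x).add hd

/-- With compact support. -/
theorem exists_diffIn_add {S : Set V} (w : V → V) (hw : ContDiff ℝ ∞ w) (c : ℝ≥0) (hc : c < 1)
    (hl : LipschitzWith c w) {K : Set V} (hK : IsCompact K) (hKS : K ⊆ S)
    (h0 : ∀ x, x ∉ K → w x = 0) : ∃ e : V ≃ₜ V, DiffIn S e ∧ ∀ x, e x = x + w x := by
  obtain ⟨e, he, h1⟩ := exists_diffeo_add w hw c hc hl
  exact ⟨e, ⟨he, K, hK, hKS, fun x hx => by rw [h1, h0 x hx, add_zero]⟩, h1⟩

/-- A smooth map with compact support is Lipschitz. -/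
theorem exists_lipschitz (X : V → V) (hX : ContDiff ℝ ∞ X) {K : Set V} (hK : IsCompact K)
    (h0 : ∀ x, x ∉ K → X x = 0) : ∃ C : ℝ≥0, LipschitzWith C X := by
  have hcs : HasCompactSupport X := HasCompactSupport.intro hK h0
  obtain ⟨C, hC⟩ := (hcs.fderiv ℝ).exists_bound_of_continuous
    (hX.continuous_fderiv (by simp))
  refine ⟨C.toNNReal, lipschitzWith_of_nnnorm_fderiv_le (𝕜 := ℝ) (hX.differentiable (by simp))
    fun x => ?_⟩
  rw [← NNReal.coe_le_coe, coe_nnnorm]
  exact (hC x).trans (Real.le_coe_toNNReal C)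

/-- Small multiples of a smooth field with compact support give diffeomorphisms. -/
theorem exists_small_step {S : Set V} (X : V → V) (hX : ContDiff ℝ ∞ X) {K : Set V}
    (hK : IsCompact K) (hKS : K ⊆ S) (h0 : ∀ x, x ∉ K → X x = 0) :
    ∃ N₀ : ℕ, 2 ≤ N₀ ∧ ∃ e : V ≃ₜ V, DiffIn S e ∧ ∀ x, e x = x + (1 / (N₀ : ℝ)) • X x := by
  obtain ⟨C, hC⟩ := exists_lipschitz X hX hK h0
  obtain ⟨N, hN⟩ := exists_nat_gt (C : ℝ)
  have hN2 : (0 : ℝ) < ((N + 2 : ℕ) : ℝ) := by positivity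
  obtain ⟨e, he, h1⟩ := exists_diffIn_add (S := S) (fun x => (1 / ((N + 2 : ℕ) : ℝ)) • X x)
    (contDiff_const.smul hX) (‖(1 / ((N + 2 : ℕ) : ℝ))‖₊ * C) (by
      rw [← NNReal.coe_lt_coe]
      push_cast
      rw [Real.norm_of_nonneg (by positivity), one_div, inv_mul_lt_iff₀ (by positivity)]
      linarith) (by
      refine LipschitzWith.of_dist_le_mul fun x y => ?_
      rw [dist_smul₀]
      have := hC.dist_le_mul x y
      push_cast
      rw [mul_assoc]
      gcongr) hK hKS (fun x hx => by simp [h0 x hx])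
  exact ⟨N + 2, by omega, e, he, h1⟩

end Pool.Agent.TopCells
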