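import Pool.Agent.Lib.MP_4f753b_an.A1

/-! Row A2: pushing points and squeezing convex sets. -/

open Set Metric Filter
open scoped ContDiff Topology Manifold NNReal

namespace Pool.Agent.TopCells

variable {V : Type} [NormedAddCommGroup V] [InnerProductSpace ℝ V]

/-- Iterates of a homeomorphism. -/
def hpow (e : V ≃ₜ V) : ℕ → (V ≃ₜ V)
  | 0 => Homeomorph.refl V
  | n + 1 => (hpow e n).trans e

theorem DiffIn.hpow {S : Set V} {e : V ≃ₜ V} (h : DiffIn S e) (n : ℕ) : DiffIn S (hpow e n) := by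
  induction n with
  | zero => exact DiffIn.refl S
  | succ n ih => exact ih.trans h

theorem hpow_succ (e : V ≃ₜ V) (n : ℕ) (x : V) : hpow e (n + 1) x = e (hpow e n x) := rfl

theorem exists_thickening {K U : Set V} (hK : IsCompact K) (hU : IsOpen U) (h : K ⊆ U) :
    ∃ ε > 0, thickening ε K ⊆ U :=
  hK.exists_thickening_subset_open hU h

variable [FiniteDimensional ℝ V]

/-- Push a point along a segment, by translations near the point. -/
theorem exists_push {S : Set V} (hS : IsOpen S) (p q : V) (h : segment ℝ p q ⊆ S) :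
    ∃ e : V ≃ₜ V, DiffIn S e ∧ ∀ᶠ x in 𝓝 p, e x = x + (q - p) := by
  have hK : IsCompact (segment ℝ p q) := by
    rw [segment_eq_image_lineMap]
    exact isCompact_Icc.image (AffineMap.lineMap_continuous)
  obtain ⟨χ, hχ, h1, K', hK', h2, h3⟩ := exists_cutoff hK hS h
  obtain ⟨U, hU, hKU, hχU⟩ := eventually_nhdsSet_iff_exists.1 h1
  obtain ⟨ε, hε, hεU⟩ := exists_thickening hK hU hKU
  obtain ⟨N, hN, e, he, h4⟩ := exists_small_step (S := S) (fun x => χ x • (q - p))
    (hχ.smul contDiff_const) hK' h2 (fun x hx => by rw [h3 x hx, zero_smul])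
  refine ⟨hpow e N, he.hpow N, ?_⟩
  filter_upwards [ball_mem_nhds p hε] with x hx
  have hN0 : (N : ℝ) ≠ 0 := by positivity
  have key : ∀ j ≤ N, hpow e j x = x + ((j : ℝ) / N) • (q - p) := by
    intro j
    induction j with
    | zero => intro _; simp [hpow]
    | succ j ih =>
      intro hj
      rw [hpow_succ, ih (by omega), h4, hχU]
      · rw [one_smul, add_assoc, ← add_smul]
        congr 2
        push_cast
        field_simp
      · apply hεU
        rw [mem_thickening_iff]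
        refine ⟨p + ((j : ℝ) / N) • (q - p), ?_, ?_⟩
        · rw [segment_eq_image']
          refine ⟨(j : ℝ) / N, ⟨by positivity, ?_⟩, rfl⟩
          rw [div_le_one (by positivity)]
          exact_mod_cast (by omega : j ≤ N)
        · rw [dist_add_right]
          exact hx
  rw [key N le_rfl, div_self hN0, one_smul]

/-- Squeeze a compact convex set towards a point of it. -/
theorem exists_squeeze {S K : Set V} (hS : IsOpen S) (hK : IsCompact K) (hcv : Convex ℝ K)
    (h : K ⊆ S) {c : V} (hc : c ∈ K) {κ₀ : ℝ} (hκ : 0 < κ₀) :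
    ∃ (e : V ≃ₜ V) (κ : ℝ), DiffIn S e ∧ 0 < κ ∧ κ < κ₀ ∧
      ∀ᶠ x in 𝓝ˢ K, e x = c + κ • (x - c) := by
  obtain ⟨χ, hχ, h1, K', hK', h2, h3⟩ := exists_cutoff hK hS h
  obtain ⟨U, hU, hKU, hχU⟩ := eventually_nhdsSet_iff_exists.1 h1
  obtain ⟨ε, hε, hεU⟩ := exists_thickening hK hU hKU
  obtain ⟨N, hN, e, he, h4⟩ := exists_small_step (S := S) (fun x => χ x • (c - x))
    (hχ.smul (contDiff_const.sub contDiff_id)) hK' h2 (fun x hx => by rw [h3 x hx, zero_smul])
  have hN1 : (2 : ℝ) ≤ N := by exact_mod_cast hN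
  have ha0 : 0 < 1 - 1 / (N : ℝ) := by
    rw [sub_pos, div_lt_one (by linarith)]
    linarith
  have ha1 : 1 - 1 / (N : ℝ) < 1 := by
    have : 0 < 1 / (N : ℝ) := by positivity
    linarith
  obtain ⟨n, hn⟩ := exists_pow_lt_of_lt_one hκ ha1
  have hconv : Convex ℝ (thickening ε K) := hcv.thickening ε
  have hcT : c ∈ thickening ε K := self_subset_thickening hε K hc
  refine ⟨hpow e n, (1 - 1 / (N : ℝ)) ^ n, he.hpow n, by positivity, hn, ?_⟩
  refine eventually_nhdsSet_iff_exists.2 ⟨thickening ε K, isOpen_thickening,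
    self_subset_thickening hε K, ?_⟩
  intro x hx
  have key : ∀ j : ℕ, hpow e j x = c + (1 - 1 / (N : ℝ)) ^ j • (x - c) := by
    intro j
    induction j with
    | zero => simp [hpow]
    | succ j ih =>
      have hmem : c + (1 - 1 / (N : ℝ)) ^ j • (x - c) ∈ thickening ε K := by
        refine hconv.add_smul_sub_mem hcT hx ⟨by positivity, ?_⟩
        exact pow_le_one₀ ha0.le ha1.le
      rw [hpow_succ, ih, h4, hχU _ (hεU hmem), one_smul, pow_succ]
      module
  exact key n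

/-- Squeeze and push. -/
theorem exists_squeeze_to {S K : Set V} (hS : IsOpen S) (hSc : Convex ℝ S) (hK : IsCompact K)
    (hcv : Convex ℝ K) (h : K ⊆ S) {c q : V} (hc : c ∈ K) (hq : q ∈ S) {κ₀ : ℝ} (hκ : 0 < κ₀) :
    ∃ (e : V ≃ₜ V) (κ : ℝ), DiffIn S e ∧ 0 < κ ∧ κ < κ₀ ∧
      ∀ᶠ x in 𝓝ˢ K, e x = q + κ • (x - c) := by
  obtain ⟨g, hg, h1⟩ := exists_push hS c q (hSc.segment_subset (h hc) hq)
  obtain ⟨ε, hε, hεg⟩ := Metric.eventually_nhds_iff_ball.1 h1
  obtain ⟨D, hD⟩ := hK.isBounded.subset_ball_lt 0 c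
  obtain ⟨e, κ, he, hκ0, hκ1, h2⟩ := exists_squeeze hS hK hcv h hc
    (lt_min hκ (div_pos hε hD.1))
  refine ⟨e.trans g, κ, he.trans hg, hκ0, lt_of_lt_of_le hκ1 (min_le_left _ _), ?_⟩
  have h3 : ∀ᶠ x in 𝓝ˢ K, x ∈ ball c D := isOpen_ball.mem_nhdsSet.2 hD.2
  filter_upwards [h2, h3] with x hx1 hx2
  rw [Homeomorph.trans_apply, hx1, hεg]
  · abel
  · rw [mem_ball_iff_norm, add_sub_cancel_left, norm_smul, Real.norm_of_nonneg hκ0.le]
    have hκ2 : κ < ε / D := lt_of_lt_of_le hκ1 (min_le_right _ _)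
    rw [lt_div_iff₀ hD.1] at hκ2
    have hx3 := mem_ball_iff_norm.1 hx2
    nlinarith [norm_nonneg (x - c)]

end Pool.Agent.TopCells
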