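import Pool.Agent.Lib.MP_4f753b_an.A2

/-! Row A3: germs close to the identity. -/

open Set Metric Filter
open scoped ContDiff Topology Manifold NNReal

namespace Pool.Agent.TopCells

variable {V : Type} [NormedAddCommGroup V] [InnerProductSpace ℝ V] [FiniteDimensional ℝ V]

/-- A bump function on the unit ball. -/
theorem exists_bump (V : Type) [NormedAddCommGroup V] [InnerProductSpace ℝ V]
    [FiniteDimensional ℝ V] : ∃ ψ : V → ℝ, ContDiff ℝ ∞ ψ ∧ (∀ᶠ x in 𝓝 (0 : V), ψ x = 1) ∧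
      ∃ K' : Set V, IsCompact K' ∧ K' ⊆ ball 0 1 ∧ ∀ x, x ∉ K' → ψ x = 0 := by
  obtain ⟨χ, hχ, h1, K', hK', h2, h3⟩ := exists_cutoff (isCompact_singleton (x := (0 : V)))
    (isOpen_ball (x := (0 : V)) (ε := 1)) (singleton_subset_iff.2 (mem_ball_self one_pos))
  rw [nhdsSet_singleton] at h1
  exact ⟨χ, hχ, h1, K', hK', h2, h3⟩

/-- Linear germs close to the identity. -/
theorem exists_germ_near (V : Type) [NormedAddCommGroup V] [InnerProductSpace ℝ V]
    [FiniteDimensional ℝ V] : ∃ ε > 0, ∀ A : V →L[ℝ] V, ‖A - ContinuousLinearMap.id ℝ V‖ < ε →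
      ∀ (S : Set V) (c : V), IsOpen S → c ∈ S →
        ∃ e : V ≃ₜ V, DiffIn S e ∧ ∀ᶠ x in 𝓝 c, e x = c + A (x - c) := by
  obtain ⟨ψ, hψ, h1, K', hK', h2, h3⟩ := exists_bump V
  obtain ⟨C, hC⟩ := exists_lipschitz (fun y => ψ y • y) (hψ.smul contDiff_id) hK'
    (fun x hx => by rw [h3 x hx, zero_smul])
  refine ⟨1 / ((C : ℝ) + 1), by positivity, ?_⟩
  intro A hA S c hS hc
  obtain ⟨ρ, hρ, hρS⟩ := Metric.isOpen_iff.1 hS c hc
  set L : V →L[ℝ] V := A - ContinuousLinearMap.id ℝ V with hL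
  have hcont : Continuous fun y : V => c + ρ • y := by fun_prop
  obtain ⟨e, he, h4⟩ := exists_diffIn_add (S := S)
    (fun x => ρ • L (ψ (ρ⁻¹ • (x - c)) • (ρ⁻¹ • (x - c))))
    (by
      refine contDiff_const.smul (L.contDiff.comp ?_)
      have h5 : ContDiff ℝ ∞ fun x : V => ρ⁻¹ • (x - c) :=
        contDiff_const.smul (contDiff_id.sub contDiff_const)
      exact (hψ.comp h5).smul h5) (‖L‖₊ * C) (by
      rw [← NNReal.coe_lt_coe]
      push_cast
      have : ‖L‖ * ((C : ℝ) + 1) < 1 := by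
        rwa [lt_div_iff₀ (by positivity)] at hA
      nlinarith [norm_nonneg L, C.coe_nonneg]) (by
      refine LipschitzWith.of_dist_le_mul fun x y => ?_
      rw [dist_smul₀, Real.norm_of_nonneg hρ.le]
      have h6 := hC.dist_le_mul (ρ⁻¹ • (x - c)) (ρ⁻¹ • (y - c))
      rw [dist_smul₀, norm_inv, Real.norm_of_nonneg hρ.le, dist_sub_right] at h6
      have h7 : dist (L (ψ (ρ⁻¹ • (x - c)) • (ρ⁻¹ • (x - c))))
          (L (ψ (ρ⁻¹ • (y - c)) • (ρ⁻¹ • (y - c)))) ≤ ‖L‖ * (C * (ρ⁻¹ * dist x y)) := by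
        rw [dist_eq_norm, ← map_sub]
        refine (L.le_opNorm _).trans ?_
        gcongr
        rw [← dist_eq_norm]
        exact h6
      refine (mul_le_mul_of_nonneg_left h7 hρ.le).trans (le_of_eq ?_)
      push_cast
      field_simp)
    (hK'.image hcont) (by
      rintro _ ⟨y, hy, rfl⟩
      apply hρS
      rw [mem_ball_iff_norm, add_sub_cancel_left, norm_smul, Real.norm_of_nonneg hρ.le]
      have := mem_ball_zero_iff.1 (h2 hy)
      nlinarith) (by
      intro x hx
      have : ρ⁻¹ • (x - c) ∉ K' := by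
        intro h
        apply hx
        refine ⟨_, h, ?_⟩
        simp only
        rw [smul_inv_smul₀ hρ.ne']
        abel
      rw [h3 _ this, zero_smul, map_zero, smul_zero])
  refine ⟨e, he, ?_⟩
  have h5 : Tendsto (fun x : V => ρ⁻¹ • (x - c)) (𝓝 c) (𝓝 0) := by
    have : Continuous fun x : V => ρ⁻¹ • (x - c) := by fun_prop
    have h6 := this.tendsto c
    simpa using h6
  filter_upwards [h5.eventually h1] with x hx
  rw [h4, hx, one_smul, map_smul, smul_inv_smul₀ hρ.ne', hL]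
  simp only [sub_apply, ContinuousLinearMap.id_apply]
  abel

/-- Germs tangent to the identity. -/
theorem exists_germ_tangent {γ : V → V} {c : V} (hγ : ∀ᶠ y in 𝓝 c, ContDiffAt ℝ ∞ γ y)
    (h0 : γ c = c) (h1 : HasFDerivAt γ (ContinuousLinearMap.id ℝ V) c) {S : Set V}
    (hS : IsOpen S) (hc : c ∈ S) :
    ∃ e : V ≃ₜ V, DiffIn S e ∧ ∀ᶠ x in 𝓝 c, e x = γ x := by
  obtain ⟨ψ, hψ, hψ1, K', hK', h2, h3⟩ := exists_bump V
  have hcs : HasCompactSupport ψ := HasCompactSupport.intro hK' h3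
  obtain ⟨C, hC⟩ := (hcs.fderiv ℝ).exists_bound_of_continuous (hψ.continuous_fderiv (by simp))
  obtain ⟨M, hM⟩ := hcs.exists_bound_of_continuous hψ.continuous
  have hψL : LipschitzWith C.toNNReal ψ :=
    lipschitzWith_of_nnnorm_fderiv_le (𝕜 := ℝ) (hψ.differentiable (by simp)) fun x => by
      rw [← NNReal.coe_le_coe, coe_nnnorm]
      exact (hC x).trans (Real.le_coe_toNNReal C)
  set D : ℝ := |M| + C.toNNReal + 1 with hD
  have hDpos : 0 < D := by positivity
  have hs : HasStrictFDerivAt γ (ContinuousLinearMap.id ℝ V) c :=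
    hγ.self_of_nhds.hasStrictFDerivAt' h1 (by simp)
  have hs2 := hs.isLittleO.def (c := 1 / (2 * D)) (by positivity)
  rw [nhds_prod_eq] at hs2
  obtain ⟨U, hU, hUγ⟩ := Filter.eventually_prod_self_iff (r := fun x y =>
    ‖γ x - γ y - (ContinuousLinearMap.id ℝ V) (x - y)‖ ≤ 1 / (2 * D) * ‖x - y‖).1 hs2
  have hmem : {y | ContDiffAt ℝ ∞ γ y} ∩ U ∩ S ∈ 𝓝 c :=
    inter_mem (inter_mem hγ hU) (hS.mem_nhds hc)
  obtain ⟨ρ, hρ, hρB⟩ := Metric.mem_nhds_iff.1 hmem
  have hlip : ∀ x ∈ ball c ρ, ∀ y ∈ ball c ρ,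
      ‖(γ x - x) - (γ y - y)‖ ≤ 1 / (2 * D) * ‖x - y‖ := by
    intro x hx y hy
    have h5 := hUγ x (hρB hx).1.2 y (hρB hy).1.2
    have h6 : γ x - x - (γ y - y) = γ x - γ y - (ContinuousLinearMap.id ℝ V) (x - y) := by
      simp only [ContinuousLinearMap.id_apply]
      abel
    rw [h6]
    exact h5
  have hval : ∀ x ∈ ball c ρ, ‖γ x - x‖ ≤ 1 / (2 * D) * ρ := by
    intro x hx
    have h5 := hlip x hx c (mem_ball_self hρ)
    rw [h0, sub_self, sub_zero] at h5
    refine h5.trans ?_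
    have := (mem_ball_iff_norm.1 hx).le
    gcongr
  have hcont : Continuous fun y : V => c + ρ • y := by fun_prop
  have hout : ∀ x, x ∉ (fun y : V => c + ρ • y) '' K' → ψ (ρ⁻¹ • (x - c)) = 0 := by
    intro x hx
    apply h3
    intro h
    apply hx
    refine ⟨_, h, ?_⟩
    simp only
    rw [smul_inv_smul₀ hρ.ne']
    abel
  have hsub : (fun y : V => c + ρ • y) '' K' ⊆ ball c ρ := by
    rintro _ ⟨y, hy, rfl⟩
    rw [mem_ball_iff_norm, add_sub_cancel_left, norm_smul, Real.norm_of_nonneg hρ.le]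
    have := mem_ball_zero_iff.1 (h2 hy)
    nlinarith
  have hψρ : ContDiff ℝ ∞ fun x : V => ψ (ρ⁻¹ • (x - c)) :=
    hψ.comp (contDiff_const.smul (contDiff_id.sub contDiff_const))
  have hψd : ∀ x y : V, |ψ (ρ⁻¹ • (x - c)) - ψ (ρ⁻¹ • (y - c))| ≤
      C.toNNReal * (ρ⁻¹ * ‖x - y‖) := by
    intro x y
    have := hψL.dist_le_mul (ρ⁻¹ • (x - c)) (ρ⁻¹ • (y - c))
    rwa [dist_smul₀, norm_inv, Real.norm_of_nonneg hρ.le, dist_sub_right, Real.dist_eq,
      dist_eq_norm] at this
  -- the case where one point is in the ball and the other one is arbitrary with `ψ = 0`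
  have hone : ∀ x ∈ ball c ρ, ∀ y, ψ (ρ⁻¹ • (y - c)) = 0 →
      ‖ψ (ρ⁻¹ • (x - c)) • (γ x - x)‖ ≤ 1 / 2 * ‖x - y‖ := by
    intro x hx y hy
    rw [norm_smul, Real.norm_eq_abs]
    have h5 := hψd x y
    rw [hy, sub_zero] at h5
    calc |ψ (ρ⁻¹ • (x - c))| * ‖γ x - x‖
        ≤ (C.toNNReal * (ρ⁻¹ * ‖x - y‖)) * (1 / (2 * D) * ρ) := by
          gcongr
          exact hval x hx
      _ = (C.toNNReal / D) * (1 / 2 * ‖x - y‖) := by field_simp
      _ ≤ 1 * (1 / 2 * ‖x - y‖) := by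
          gcongr
          rw [div_le_one hDpos, hD]
          have := abs_nonneg M
          linarith
      _ = _ := one_mul _
  obtain ⟨e, he, h4⟩ := exists_diffIn_add (S := S)
    (fun x => ψ (ρ⁻¹ • (x - c)) • (γ x - x))
    (by
      refine contDiff_iff_contDiffAt.2 fun x => ?_
      by_cases hx : x ∈ ball c ρ
      · have h6 : ContDiffAt ℝ ∞ γ x := (hρB hx).1.1
        exact hψρ.contDiffAt.smul (h6.sub contDiffAt_id)
      · have h5 : (fun x => ψ (ρ⁻¹ • (x - c)) • (γ x - x)) =ᶠ[𝓝 x] fun _ => 0 := by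
          have h6 : ((fun y : V => c + ρ • y) '' K')ᶜ ∈ 𝓝 x :=
            (hK'.image hcont).isClosed.isOpen_compl.mem_nhds fun h => hx (hsub h)
          filter_upwards [h6] with y hy
          rw [hout y hy, zero_smul]
        exact contDiffAt_const.congr_of_eventuallyEq h5) (1 / 2) (by
      rw [← NNReal.coe_lt_coe]; norm_num) (by
      refine LipschitzWith.of_dist_le_mul fun x y => ?_
      rw [dist_eq_norm, dist_eq_norm]
      push_cast
      by_cases hx : x ∈ ball c ρ
      · by_cases hy : y ∈ ball c ρ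
        · have e1 : ψ (ρ⁻¹ • (x - c)) • (γ x - x) - ψ (ρ⁻¹ • (y - c)) • (γ y - y) =
              ψ (ρ⁻¹ • (x - c)) • ((γ x - x) - (γ y - y)) +
              (ψ (ρ⁻¹ • (x - c)) - ψ (ρ⁻¹ • (y - c))) • (γ y - y) := by
            module
          rw [e1]
          refine (norm_add_le _ _).trans ?_
          rw [norm_smul, norm_smul, Real.norm_eq_abs, Real.norm_eq_abs]
          have h5 : |ψ (ρ⁻¹ • (x - c))| ≤ |M| := ((hM _)).trans (le_abs_self M)
          calc |ψ (ρ⁻¹ • (x - c))| * ‖(γ x - x) - (γ y - y)‖ +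
                |ψ (ρ⁻¹ • (x - c)) - ψ (ρ⁻¹ • (y - c))| * ‖γ y - y‖
              ≤ |M| * (1 / (2 * D) * ‖x - y‖) +
                (C.toNNReal * (ρ⁻¹ * ‖x - y‖)) * (1 / (2 * D) * ρ) := by
                gcongr
                · exact hlip x hx y hy
                · exact hψd x y
                · exact hval y hy
            _ = ((|M| + C.toNNReal) / D) * (1 / 2 * ‖x - y‖) := by field_simp
            _ ≤ 1 * (1 / 2 * ‖x - y‖) := by
                gcongr
                rw [div_le_one hDpos, hD]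
                linarith
            _ = _ := one_mul _
        · have h5 := hout y fun h => hy (hsub h)
          have h6 := hone x hx y h5
          simpa [h5] using h6
      · have h5 := hout x fun h => hx (hsub h)
        by_cases hy : y ∈ ball c ρ
        · have h6 := hone y hy x h5
          rw [h5, zero_smul, zero_sub, norm_neg]
          rwa [norm_sub_rev x y]
        · have h6 := hout y fun h => hy (hsub h)
          rw [h5, h6]
          simp)
    (hK'.image hcont) (hsub.trans fun x hx => (hρB hx).2) (fun x hx => by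
      rw [hout x hx, zero_smul])
  refine ⟨e, he, ?_⟩
  have h5 : Tendsto (fun x : V => ρ⁻¹ • (x - c)) (𝓝 c) (𝓝 0) := by
    have : Continuous fun x : V => ρ⁻¹ • (x - c) := by fun_prop
    have h6 := this.tendsto c
    simpa using h6
  filter_upwards [h5.eventually hψ1] with x hx
  rw [h4, hx, one_smul]
  abel

end Pool.Agent.TopCells
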