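import Mathlib

/-! Row A4: real matrices of positive determinant are products of matrices close to `1`. -/

open Set Metric Filter Matrix
open scoped Topology

namespace Pool.Agent.TopCells

variable {ι : Type} [Fintype ι] [DecidableEq ι]

section

variable (P : Matrix ι ι ℝ → Prop) (hmul : ∀ A B, P A → P B → P (A * B))
  (hnear : ∀ᶠ A in 𝓝 (1 : Matrix ι ι ℝ), P A)

include hmul hnear

theorem a4_one : P 1 := hnear.self_of_nhds

theorem a4_pow {A : Matrix ι ι ℝ} (h : P A) (k : ℕ) : P (A ^ k) := by
  induction k with
  | zero => rw [pow_zero]; exact a4_one P hmul hnear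
  | succ k ih => rw [pow_succ]; exact hmul _ _ ih h

theorem a4_transvec {i j : ι} (hij : i ≠ j) (c : ℝ) : P (transvection i j c) := by
  have h1 : Tendsto (fun N : ℕ => transvection i j (c / ((N : ℝ) + 1))) atTop
      (𝓝 (1 : Matrix ι ι ℝ)) := by
    have h2 : Tendsto (fun N : ℕ => c / ((N : ℝ) + 1)) atTop (𝓝 0) :=
      tendsto_const_nhds.div_atTop (tendsto_natCast_atTop_atTop.atTop_add tendsto_const_nhds)
    have h3 : Continuous fun x : ℝ => transvection i j x := by
      refine continuous_matrix fun a b => ?_
      simp only [transvection, Matrix.add_apply, Matrix.single_apply]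
      split_ifs <;> fun_prop
    have h4 := (h3.tendsto 0).comp h2
    rw [transvection_zero] at h4
    exact h4
  obtain ⟨N, hN⟩ := (h1.eventually hnear).exists
  have h5 : ∀ k : ℕ, transvection i j (c / ((N : ℝ) + 1)) ^ k =
      transvection i j (k * (c / ((N : ℝ) + 1))) := by
    intro k
    induction k with
    | zero => simp
    | succ k ih =>
      rw [pow_succ, ih, transvection_mul_transvection_same _ _ hij]
      congr 1
      push_cast
      ring
  have h6 := a4_pow P hmul hnear hN (N + 1)
  rw [h5] at h6
  convert h6 using 2
  push_cast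
  field_simp

theorem a4_diag_pos (d : ι → ℝ) (hd : ∀ i, 0 < d i) : P (diagonal d) := by
  have h1 : Tendsto (fun N : ℕ => diagonal fun i => d i ^ (1 / ((N : ℝ) + 1))) atTop
      (𝓝 (1 : Matrix ι ι ℝ)) := by
    have h2 : Tendsto (fun N : ℕ => 1 / ((N : ℝ) + 1)) atTop (𝓝 0) :=
      tendsto_one_div_add_atTop_nhds_zero_nat
    have h3 : Continuous fun x : ℝ => (diagonal fun i => d i ^ x : Matrix ι ι ℝ) := by
      refine continuous_matrix fun a b => ?_
      simp only [Matrix.diagonal_apply]
      split_ifs
      · exact Real.continuous_const_rpow (hd a).ne'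
      · exact continuous_const
    have h4 := (h3.tendsto 0).comp h2
    simp only [Real.rpow_zero, diagonal_one] at h4
    exact h4
  obtain ⟨N, hN⟩ := (h1.eventually hnear).exists
  have h6 := a4_pow P hmul hnear hN (N + 1)
  rw [diagonal_pow] at h6
  have e : (fun i => d i ^ (1 / ((N : ℝ) + 1))) ^ (N + 1) = d := by
    funext i
    rw [Pi.pow_apply, ← Real.rpow_natCast, ← Real.rpow_mul (hd i).le]
    push_cast
    rw [one_div, inv_mul_cancel₀ (by positivity), Real.rpow_one]
  rwa [e] at h6

theorem a4_pair {i j : ι} (hij : i ≠ j) :
    P (diagonal fun k => if k = i ∨ k = j then (-1 : ℝ) else 1) := by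
  set r : Matrix ι ι ℝ := transvection i j (-1) * transvection j i 1 * transvection i j (-1)
    with hr
  have h1 : P r := hmul _ _ (hmul _ _ (a4_transvec P hmul hnear hij _)
    (a4_transvec P hmul hnear hij.symm _)) (a4_transvec P hmul hnear hij _)
  have h2 : r * r = diagonal fun k => if k = i ∨ k = j then (-1 : ℝ) else 1 := by
    have hji : j ≠ i := hij.symm
    set a := Matrix.single i j (1 : ℝ) with ha
    set b := Matrix.single j i (1 : ℝ) with hb
    set p := Matrix.single i i (1 : ℝ) with hp
    set q := Matrix.single j j (1 : ℝ) with hq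
    have aa : a * a = 0 := Matrix.single_mul_single_of_ne _ _ _ _ hji _
    have bb : b * b = 0 := Matrix.single_mul_single_of_ne _ _ _ _ hij _
    have ab : a * b = p := by rw [ha, hb, hp, Matrix.single_mul_single_same, mul_one]
    have ba : b * a = q := by rw [ha, hb, hq, Matrix.single_mul_single_same, mul_one]
    have pp : p * p = p := by rw [hp, Matrix.single_mul_single_same, mul_one]
    have qq : q * q = q := by rw [hq, Matrix.single_mul_single_same, mul_one]
    have pq : p * q = 0 := Matrix.single_mul_single_of_ne _ _ _ _ hij _
    have qp : q * p = 0 := Matrix.single_mul_single_of_ne _ _ _ _ hji _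
    have ap : a * p = 0 := Matrix.single_mul_single_of_ne _ _ _ _ hji _
    have pa : p * a = a := by rw [ha, hp, Matrix.single_mul_single_same, mul_one]
    have aq : a * q = a := by rw [ha, hq, Matrix.single_mul_single_same, mul_one]
    have qa : q * a = 0 := Matrix.single_mul_single_of_ne _ _ _ _ hji _
    have bp : b * p = b := by rw [hb, hp, Matrix.single_mul_single_same, mul_one]
    have pb : p * b = 0 := Matrix.single_mul_single_of_ne _ _ _ _ hij _
    have bq : b * q = 0 := Matrix.single_mul_single_of_ne _ _ _ _ hij _
    have qb : q * b = b := by rw [hb, hq, Matrix.single_mul_single_same, mul_one]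
    have t1 : transvection i j (-1 : ℝ) = 1 - a := by
      rw [transvection, ha, sub_eq_add_neg, Matrix.single_neg]
    have t2 : transvection j i (1 : ℝ) = 1 + b := rfl
    have e1 : r = 1 + b - a - p - q := by
      rw [hr, t1, t2]
      simp only [sub_mul, mul_sub, add_mul, mul_add, one_mul, mul_one, aa, ab, ba, pa, sub_zero]
      abel
    have e2 : r * r = 1 - (p + p) - (q + q) := by
      rw [e1]
      simp only [sub_mul, mul_sub, add_mul, mul_add, one_mul, mul_one, aa, bb, ab, ba, pp, qq, pq,
        qp, ap, pa, aq, qa, bp, pb, bq, qb]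
      abel
    rw [e2]
    ext x y
    simp only [hp, hq, Matrix.sub_apply, Matrix.add_apply, Matrix.one_apply, Matrix.single_apply,
      Matrix.diagonal_apply]
    by_cases hxy : x = y
    · subst hxy
      by_cases hx : x = i
      · subst hx
        simp [hij, hji]
      · by_cases hx2 : x = j
        · subst hx2
          simp [hij, hji]
        · simp [hx, hx2, Ne.symm hx, Ne.symm hx2]
    · have h3 : ¬ (i = x ∧ i = y) := fun h => hxy (h.1.symm.trans h.2)
      have h4 : ¬ (j = x ∧ j = y) := fun h => hxy (h.1.symm.trans h.2)
      simp [hxy, h3, h4]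
  rw [← h2]
  exact hmul _ _ h1 h1

theorem a4_diag (m : ℕ) : ∀ d : ι → ℝ, (Finset.univ.filter fun i => d i < 0).card = m →
    0 < ∏ i, d i → P (diagonal d) := by
  induction m using Nat.strong_induction_on with
  | _ m ih =>
    intro d hd hpos
    by_cases h : ∀ i, 0 < d i
    · exact a4_diag_pos P hmul hnear d h
    · push Not at h
      obtain ⟨i, hi⟩ := h
      have hne : ∀ k, d k ≠ 0 := fun k => Finset.prod_ne_zero_iff.1 hpos.ne' k (Finset.mem_univ k)
      have hi0 : d i < 0 := lt_of_le_of_ne hi (hne i)
      -- a second negative entry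
      obtain ⟨j, hji, hj⟩ : ∃ j, j ≠ i ∧ d j < 0 := by
        by_contra hcon
        push Not at hcon
        have h1 : ∏ k, d k = d i * ∏ k ∈ Finset.univ.erase i, d k :=
          (Finset.mul_prod_erase _ _ (Finset.mem_univ i)).symm
        have h2 : 0 ≤ ∏ k ∈ Finset.univ.erase i, d k :=
          Finset.prod_nonneg fun k hk => hcon k (Finset.ne_of_mem_erase hk)
        nlinarith
      set d' : ι → ℝ := fun k => if k = i ∨ k = j then -d k else d k with hd'
      have e1 : diagonal d = (diagonal fun k => if k = i ∨ k = j then (-1 : ℝ) else 1) *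
          diagonal d' := by
        rw [diagonal_mul_diagonal]
        congr 1
        funext k
        rw [hd']
        simp only
        split_ifs <;> ring
      rw [e1]
      refine hmul _ _ (a4_pair P hmul hnear hji.symm) ?_
      have hsub : (Finset.univ.filter fun k => d' k < 0) ⊆
          (Finset.univ.filter fun k => d k < 0).erase i := by
        intro k hk
        rw [Finset.mem_filter] at hk
        rw [Finset.mem_erase, Finset.mem_filter]
        have hk2 := hk.2
        rw [hd'] at hk2
        simp only at hk2
        split_ifs at hk2 with h3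
        · rcases h3 with rfl | rfl <;> linarith
        · push Not at h3
          exact ⟨h3.1, Finset.mem_univ _, hk2⟩
      have hcard : (Finset.univ.filter fun k => d' k < 0).card < m := by
        refine lt_of_le_of_lt (Finset.card_le_card hsub) ?_
        rw [← hd]
        exact Finset.card_erase_lt_of_mem (Finset.mem_filter.2 ⟨Finset.mem_univ _, hi0⟩)
      refine ih _ hcard d' rfl ?_
      have e2 : ∏ k, d k = ∏ k, d' k := by
        have h4 := congrArg Matrix.det e1
        rw [Matrix.det_mul, det_diagonal, det_diagonal, det_diagonal] at h4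
        have h5 : ∏ k, (if k = i ∨ k = j then (-1 : ℝ) else 1) = 1 := by
          have h6 : ∀ k, (if k = i ∨ k = j then (-1 : ℝ) else 1) =
              (if k = i then (-1 : ℝ) else 1) * (if k = j then (-1 : ℝ) else 1) := by
            intro k
            by_cases h7 : k = i
            · subst h7
              simp [hji.symm]
            · simp [h7]
          rw [Finset.prod_congr rfl fun k _ => h6 k, Finset.prod_mul_distrib]
          simp
        rw [h5, one_mul] at h4
        exact h4
      rw [← e2]
      exact hpos

/-- Matrices of positive determinant are products of matrices close to `1`. -/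
theorem pos_det_induction (A : Matrix ι ι ℝ) (hA : 0 < A.det) : P A := by
  obtain ⟨L, L', D, hM⟩ := Matrix.Pivot.exists_list_transvec_mul_diagonal_mul_list_transvec A
  have hlist : ∀ L : List (TransvectionStruct ι ℝ), P (L.map TransvectionStruct.toMatrix).prod := by
    intro L
    induction L with
    | nil => simpa using a4_one P hmul hnear
    | cons t L ih =>
      rw [List.map_cons, List.prod_cons]
      exact hmul _ _ (a4_transvec P hmul hnear t.hij t.c) ih
  rw [hM, Matrix.det_mul, Matrix.det_mul, TransvectionStruct.det_toMatrix_prod,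
    TransvectionStruct.det_toMatrix_prod, one_mul, mul_one, det_diagonal] at hA
  rw [hM]
  exact hmul _ _ (hmul _ _ (hlist L) (a4_diag P hmul hnear _ D rfl hA)) (hlist L')

end

end Pool.Agent.TopCells
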