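import Pool.Agent.Lib.MP_4f753b_an.A3
import Pool.Agent.Lib.MP_4f753b_an.A4

/-! Row A5: germs of orientation preserving local diffeomorphisms extend to diffeomorphisms with
compact support. -/

open Set Metric Filter
open scoped ContDiff Topology Manifold NNReal

namespace Pool.Agent.TopCells

variable {V : Type} [NormedAddCommGroup V] [InnerProductSpace ℝ V] [FiniteDimensional ℝ V]

/-- Linear germs of positive determinant. -/
theorem exists_germ_linear (A : V →L[ℝ] V) (hA : 0 < LinearMap.det (A : V →ₗ[ℝ] V)) {S : Set V}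
    {c : V} (hS : IsOpen S) (hc : c ∈ S) :
    ∃ e : V ≃ₜ V, DiffIn S e ∧ ∀ᶠ x in 𝓝 c, e x = c + A (x - c) := by
  let b := Module.finBasis ℝ V
  let T : Matrix (Fin (Module.finrank ℝ V)) (Fin (Module.finrank ℝ V)) ℝ → (V →L[ℝ] V) :=
    fun M => LinearMap.toContinuousLinearMap (Matrix.toLin b b M)
  have hTmul : ∀ M N x, T (M * N) x = T M (T N x) := by
    intro M N x
    simp only [T, LinearMap.coe_toContinuousLinearMap', Matrix.toLin_mul b b b,
      LinearMap.comp_apply]
  have hT1 : T 1 = ContinuousLinearMap.id ℝ V := by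
    ext x
    simp [T, Matrix.toLin_one]
  have hTcont : Continuous T := by
    have h1 : Continuous fun M : Matrix (Fin (Module.finrank ℝ V)) (Fin (Module.finrank ℝ V)) ℝ =>
        ((LinearMap.toContinuousLinearMap : (V →ₗ[ℝ] V) ≃ₗ[ℝ] (V →L[ℝ] V)) :
          (V →ₗ[ℝ] V) →ₗ[ℝ] (V →L[ℝ] V)).comp
          ((Matrix.toLin b b).toLinearMap) M :=
      LinearMap.continuous_of_finiteDimensional _
    exact h1
  let P : Matrix (Fin (Module.finrank ℝ V)) (Fin (Module.finrank ℝ V)) ℝ → Prop := fun M =>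
    ∀ (S : Set V) (c : V), IsOpen S → c ∈ S →
      ∃ e : V ≃ₜ V, DiffIn S e ∧ ∀ᶠ x in 𝓝 c, e x = c + T M (x - c)
  have hP : ∀ M, 0 < M.det → P M := by
    intro M hM
    refine pos_det_induction P ?_ ?_ M hM
    · intro M N hM hN S c hS hc
      obtain ⟨e, he, h1⟩ := hM S c hS hc
      obtain ⟨e', he', h2⟩ := hN S c hS hc
      refine ⟨e'.trans e, he'.trans he, ?_⟩
      have h3 : Tendsto e' (𝓝 c) (𝓝 c) := by
        have h4 := e'.continuous.tendsto c
        have h5 : e' c = c := by
          have := h2.self_of_nhds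
          simpa using this
        rwa [h5] at h4
      filter_upwards [h2, h3.eventually h1] with x hx1 hx2
      rw [Homeomorph.trans_apply, hx2, hx1, add_sub_cancel_left, hTmul]
    · obtain ⟨ε, hε, h1⟩ := exists_germ_near V
      have h2 : ∀ᶠ M in 𝓝 (1 : Matrix _ _ ℝ), T M ∈ ball (ContinuousLinearMap.id ℝ V) ε := by
        have h3 := hTcont.tendsto 1
        rw [hT1] at h3
        exact h3.eventually (ball_mem_nhds _ hε)
      filter_upwards [h2] with M hM S c hS hc
      exact h1 (T M) (mem_ball_iff_norm.1 hM) S c hS hc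
  have h1 := hP (LinearMap.toMatrix b b (A : V →ₗ[ℝ] V)) (by
    rw [LinearMap.det_toMatrix]
    exact hA) S c hS hc
  have h2 : T (LinearMap.toMatrix b b (A : V →ₗ[ℝ] V)) = A := by
    ext x
    simp [T, Matrix.toLin_toMatrix]
  rw [h2] at h1
  exact h1

/-- Germs of orientation preserving local diffeomorphisms. -/
theorem exists_germ {S : Set V} {c : V} (hS : IsOpen S) {g : V → V}
    (hg : LD g c) (hdet : 0 < LinearMap.det (fderiv ℝ g c : V →ₗ[ℝ] V))
    (hseg : segment ℝ c (g c) ⊆ S) :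
    ∃ e : V ≃ₜ V, DiffIn S e ∧ ∀ᶠ x in 𝓝 c, e x = g x := by
  have hc : c ∈ S := hseg (left_mem_segment ℝ _ _)
  obtain ⟨e₁, he₁, h1⟩ := exists_push hS c (g c) hseg
  obtain ⟨e₂, he₂, h2⟩ := exists_germ_linear (fderiv ℝ g c) hdet hS hc
  obtain ⟨hg1, A, hgA⟩ := hg
  have hA : (A : V →L[ℝ] V) = fderiv ℝ g c := hgA.fderiv.symm
  -- `γ = (τ A)⁻¹ g`
  let γ : V → V := fun x => c + A.symm (g x - g c)
  obtain ⟨e₃, he₃, h3⟩ := exists_germ_tangent (γ := γ) (c := c) (by
      filter_upwards [hg1] with y hy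
      exact contDiffAt_const.add (A.symm.contDiff.contDiffAt.comp y (hy.sub contDiffAt_const)))
    (by simp [γ]) (by
      have h4 := ((A.symm : V →L[ℝ] V).hasFDerivAt.comp c (hgA.sub_const (g c))).const_add c
      have h5 : (A.symm : V →L[ℝ] V).comp (A : V →L[ℝ] V) = ContinuousLinearMap.id ℝ V := by
        ext x
        simp
      rw [h5] at h4
      exact h4) hS hc
  refine ⟨(e₃.trans e₂).trans e₁, (he₃.trans he₂).trans he₁, ?_⟩
  have hγc : γ c = c := by simp [γ]
  have h6 : Tendsto e₃ (𝓝 c) (𝓝 c) := by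
    have h4 := e₃.continuous.tendsto c
    rwa [h3.self_of_nhds, hγc] at h4
  have h7 : Tendsto e₂ (𝓝 c) (𝓝 c) := by
    have h4 := e₂.continuous.tendsto c
    have h5 : e₂ c = c := by
      have := h2.self_of_nhds
      simpa using this
    rwa [h5] at h4
  filter_upwards [h3, h6.eventually h2, (h7.comp h6).eventually h1] with x hx3 hx2 hx1
  simp only [Function.comp] at hx1
  rw [Homeomorph.trans_apply, Homeomorph.trans_apply, hx1, hx2, hx3, ← hA]
  simp only [γ, add_sub_cancel_left, ContinuousLinearEquiv.coe_coe,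
    ContinuousLinearEquiv.apply_symm_apply]
  abel

end Pool.Agent.TopCells
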