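import Pool.Agent.Lib.MP_4f753b_an.A5

/-! Row A6: conjugation by an open embedding, extension of embeddings of convex sets. -/

open Set Metric Filter
open scoped ContDiff Topology Manifold NNReal

namespace Pool.Agent.TopCells

variable {V : Type} [NormedAddCommGroup V] [InnerProductSpace ℝ V] [FiniteDimensional ℝ V]

omit [FiniteDimensional ℝ V] in
theorem LD.map_nhds [CompleteSpace V] {f : V → V} {x : V} (hf : LD f x) :
    map f (𝓝 x) = 𝓝 (f x) := by
  obtain ⟨A, hA⟩ := hf.strict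
  exact hA.map_nhds_eq_of_equiv

/-- A local inverse. -/
theorem LD.exists_local_inverse {g : V → V} {x : V} (hg : LD g x) :
    ∃ r : V → V, LD r (g x) ∧ r (g x) = x ∧ (∀ᶠ y in 𝓝 (g x), g (r y) = y) ∧
      ∀ᶠ z in 𝓝 x, r (g z) = z := by
  obtain ⟨A, hA⟩ := hg.strict
  have hcd := hg.contDiffAt
  refine ⟨hA.localInverse g A x, ?_, hA.localInverse_apply_image, hA.eventually_right_inverse,
    hA.eventually_left_inverse⟩
  have h1 : ∀ᶠ y in 𝓝 (g x), LD g (hA.localInverse g A x y) := by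
    have h2 : Tendsto (hA.localInverse g A x) (𝓝 (g x)) (𝓝 x) := hA.localInverse_tendsto
    exact h2.eventually hg.eventually
  have key : ∀ᶠ y in 𝓝 (g x), ContDiffAt ℝ ∞ (hA.localInverse g A x) y := by
    let e := hA.toOpenPartialHomeomorph g
    have h3 : ∀ᶠ y in 𝓝 (g x), y ∈ e.target :=
      e.open_target.mem_nhds hA.image_mem_toOpenPartialHomeomorph_target
    filter_upwards [h1, h3] with y hy1 hy2
    have hc := hy1.contDiffAt
    obtain ⟨_, B, hB⟩ := hy1
    exact e.contDiffAt_symm hy2 hB hc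
  refine ⟨key, A.symm, ?_⟩
  exact (hA.to_localInverse).hasFDerivAt

/-- Conjugation of a diffeomorphism with compact support in `B` by an open embedding of `B`. -/
theorem exists_conj {B : Set V} (hB : IsOpen B) {g : V → V} (hinj : InjOn g B)
    (hg : ∀ x ∈ B, LD g x) {lam : V ≃ₜ V} (hl : DiffIn B lam) :
    ∃ L : V ≃ₜ V, DiffIn (g '' B) L ∧ ∀ x ∈ B, L (g x) = g (lam x) := by
  classical
  -- the function and its properties, for any `lam`
  have main : ∀ lam : V ≃ₜ V, DiffIn B lam → ∃ F : V → V, (∀ x ∈ B, F (g x) = g (lam x)) ∧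
      (∀ y, y ∉ g '' B → F y = y) ∧ (∀ y, LD F y) ∧
      ∃ K : Set V, IsCompact K ∧ K ⊆ g '' B ∧ ∀ y, y ∉ K → F y = y := by
    intro lam hl
    let F : V → V := fun y => if h : y ∈ g '' B then g (lam h.choose) else y
    have hF1 : ∀ x ∈ B, F (g x) = g (lam x) := by
      intro x hx
      have h : g x ∈ g '' B := ⟨x, hx, rfl⟩
      simp only [F, dif_pos h]
      have h2 := h.choose_spec
      rw [hinj h2.1 hx h2.2]
    have hF2 : ∀ y, y ∉ g '' B → F y = y := by
      intro y hy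
      simp only [F, dif_neg hy]
    obtain ⟨hd, K, hK, hKB, hK0⟩ := hl
    have hKimg : IsCompact (g '' K) :=
      hK.image_of_continuousOn fun x hx => (hg x (hKB hx)).continuousAt.continuousWithinAt
    have hF3 : ∀ y, y ∉ g '' K → F y = y := by
      intro y hy
      by_cases h : y ∈ g '' B
      · obtain ⟨x, hx, rfl⟩ := h
        rw [hF1 x hx, hK0 x fun h => hy ⟨x, h, rfl⟩]
      · exact hF2 y h
    refine ⟨F, hF1, hF2, ?_, g '' K, hKimg, image_mono hKB, hF3⟩
    intro y
    by_cases h : y ∈ g '' B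
    · obtain ⟨x, hx, rfl⟩ := h
      obtain ⟨r, hr, hrx, hr1, hr2⟩ := (hg x hx).exists_local_inverse
      have hlam : lam x ∈ B := (DiffIn.mem_iff ⟨hd, K, hK, hKB, hK0⟩).2 hx
      have h1 : LD (fun y => g (lam (r y))) (g x) := by
        refine LD.comp' (f := g) (g := fun y => lam (r y)) ?_ ?_
        · rw [hrx]; exact hg _ hlam
        · refine LD.comp' (f := lam) (g := r) (LD.of_isDiffeo hd _) hr
      refine h1.congr ?_
      have h2 : ∀ᶠ y in 𝓝 (g x), r y ∈ B := by
        have h3 := hr.continuousAt.tendsto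
        rw [hrx] at h3
        exact h3.eventually (hB.mem_nhds hx)
      filter_upwards [h2, hr1] with y hy1 hy2
      have := hF1 (r y) hy1
      rwa [hy2] at this
    · refine (LD.id y).congr ?_
      have h2 : y ∉ g '' K := fun h' => h (image_mono hKB h')
      filter_upwards [hKimg.isClosed.isOpen_compl.mem_nhds h2] with z hz
      exact hF3 z hz
  obtain ⟨F, hF1, hF2, hF3, K, hK, hKB, hK0⟩ := main lam hl
  obtain ⟨F', hF1', hF2', hF3', -⟩ := main lam.symm hl.symm
  have hmem : ∀ x ∈ B, lam x ∈ B := fun x hx => hl.mem_iff.2 hx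
  have hmem' : ∀ x ∈ B, lam.symm x ∈ B := fun x hx => hl.symm.mem_iff.2 hx
  have hinv1 : ∀ y, F' (F y) = y := by
    intro y
    by_cases h : y ∈ g '' B
    · obtain ⟨x, hx, rfl⟩ := h
      rw [hF1 x hx, hF1' _ (hmem x hx), lam.symm_apply_apply]
    · rw [hF2 y h, hF2' y h]
  have hinv2 : ∀ y, F (F' y) = y := by
    intro y
    by_cases h : y ∈ g '' B
    · obtain ⟨x, hx, rfl⟩ := h
      rw [hF1' x hx, hF1 _ (hmem' x hx), lam.apply_symm_apply]
    · rw [hF2' y h, hF2 y h]
  let L : V ≃ₜ V :=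
    { toFun := F
      invFun := F'
      left_inv := hinv1
      right_inv := hinv2
      continuous_toFun := continuous_iff_continuousAt.2 fun y => (hF3 y).continuousAt
      continuous_invFun := continuous_iff_continuousAt.2 fun y => (hF3' y).continuousAt }
  refine ⟨L, ⟨⟨contDiff_iff_contDiffAt.2 fun y => (hF3 y).contDiffAt,
    contDiff_iff_contDiffAt.2 fun y => (hF3' y).contDiffAt⟩, K, hK, hKB, hK0⟩, hF1⟩

/-- Unfolding: an orientation preserving open embedding `g` of a neighbourhood of a compact convex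
set `K` into the convex set `S` is undone near `K` by a diffeomorphism with compact support in
`S`. -/
theorem exists_unfold {S B K : Set V} (hS : IsOpen S) (hSc : Convex ℝ S) (hB : IsOpen B)
    (hBS : B ⊆ S) (hK : IsCompact K) (hKc : Convex ℝ K) (hKB : K ⊆ B) {c : V} (hc : c ∈ K)
    {g : V → V} (hinj : InjOn g B) (hg : ∀ x ∈ B, LD g x) (hgS : MapsTo g B S)
    (hdet : 0 < LinearMap.det (fderiv ℝ g c : V →ₗ[ℝ] V)) :
    ∃ s : V ≃ₜ V, DiffIn S s ∧ ∀ᶠ x in 𝓝ˢ K, s (g x) = x := by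
  have hcB := hKB hc
  obtain ⟨e, he, h1⟩ := exists_germ hS (hg c hcB) hdet
    (hSc.segment_subset (hBS hcB) (hgS hcB))
  obtain ⟨ε, hε, hεe⟩ := Metric.eventually_nhds_iff_ball.1 h1
  obtain ⟨D, hD⟩ := hK.isBounded.subset_ball_lt 0 c
  obtain ⟨lam, κ, hlam, hκ0, hκ1, h2⟩ := exists_squeeze hB hK hKc hKB hc
    (div_pos hε hD.1)
  obtain ⟨L, hL, hL1⟩ := exists_conj hB hinj hg hlam
  have hLS : DiffIn S L := hL.mono (image_subset_iff.2 hgS)
  refine ⟨(L.trans e.symm).trans lam.symm, (hLS.trans he.symm).trans (hlam.mono hBS).symm, ?_⟩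
  have h3 : ∀ᶠ x in 𝓝ˢ K, x ∈ ball c D := isOpen_ball.mem_nhdsSet.2 hD.2
  have h4 : ∀ᶠ x in 𝓝ˢ K, x ∈ B := hB.mem_nhdsSet.2 hKB
  filter_upwards [h2, h3, h4] with x hx1 hx2 hx3
  rw [Homeomorph.trans_apply, Homeomorph.trans_apply, hL1 x hx3]
  have h5 : e (lam x) = g (lam x) := by
    apply hεe
    rw [hx1, mem_ball_iff_norm, add_sub_cancel_left, norm_smul, Real.norm_of_nonneg hκ0.le]
    rw [lt_div_iff₀ hD.1] at hκ1
    have hx4 := mem_ball_iff_norm.1 hx2
    nlinarith [norm_nonneg (x - c)]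
  rw [← h5, e.symm_apply_apply, lam.symm_apply_apply]

/-- An embedding of a ball agrees with a diffeomorphism of `V` on a smaller ball. -/
theorem exists_diffeo_eq {F : V → V} {R R' : ℝ} (hR : 0 ≤ R) (hRR : R < R')
    (hinj : InjOn F (ball 0 R')) (hF : ∀ x ∈ ball (0 : V) R', LD F x) :
    ∃ g : V ≃ₜ V, IsDiffeo g ∧ ∀ x ∈ closedBall (0 : V) R, g x = F x := by
  have hR' : 0 < R' := lt_of_le_of_lt hR hRR
  have h0 : (0 : V) ∈ ball (0 : V) R' := mem_ball_self hR'
  obtain ⟨hg1, A, hgA⟩ := hF 0 h0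
  let γ : V → V := fun x => A.symm (F x - F 0)
  obtain ⟨e₃, he₃, h3⟩ := exists_germ_tangent (γ := γ) (c := 0) (by
      filter_upwards [hg1] with y hy
      exact A.symm.contDiff.contDiffAt.comp y (hy.sub contDiffAt_const))
    (by simp [γ]) (by
      have h4 := (A.symm : V →L[ℝ] V).hasFDerivAt.comp 0 (hgA.sub_const (F 0))
      have h5 : (A.symm : V →L[ℝ] V).comp (A : V →L[ℝ] V) = ContinuousLinearMap.id ℝ V := by
        ext x
        simp
      rw [h5] at h4
      exact h4) isOpen_univ (mem_univ 0)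
  -- `e = τ A e₃`
  let e : V ≃ₜ V := (e₃.trans A.toHomeomorph).trans (Homeomorph.addRight (F 0))
  have he : IsDiffeo e := by
    refine (he₃.1.trans ⟨A.contDiff, A.symm.contDiff⟩).trans
      ⟨contDiff_id.add contDiff_const, contDiff_id.add contDiff_const⟩
  have heF : ∀ᶠ x in 𝓝 (0 : V), e x = F x := by
    filter_upwards [h3] with x hx
    change A (e₃ x) + F 0 = F x
    rw [hx]
    simp [γ]
  obtain ⟨ε, hε, hεe⟩ := Metric.eventually_nhds_iff_ball.1 heF
  obtain ⟨lam, κ, hlam, hκ0, hκ1, h2⟩ := exists_squeeze (isOpen_ball (x := (0 : V)) (ε := R'))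
    (isCompact_closedBall (0 : V) R) (convex_closedBall _ _) (closedBall_subset_ball hRR)
    (mem_closedBall_self hR) (div_pos hε (by linarith : 0 < R + 1))
  obtain ⟨L, hL, hL1⟩ := exists_conj isOpen_ball hinj hF hlam
  refine ⟨(lam.trans e).trans L.symm, (hlam.1.trans he).trans hL.1.symm, ?_⟩
  intro x hx
  have hx1 := h2.self_of_nhdsSet x hx
  rw [Homeomorph.trans_apply, Homeomorph.trans_apply, Homeomorph.symm_apply_eq,
    hL1 x (closedBall_subset_ball hRR hx)]
  apply hεe
  rw [hx1, mem_ball_iff_norm, sub_zero, zero_add, sub_zero, norm_smul,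
    Real.norm_of_nonneg hκ0.le]
  rw [lt_div_iff₀ (by linarith)] at hκ1
  have hx4 := mem_closedBall_zero_iff.1 hx
  nlinarith [norm_nonneg x]

end Pool.Agent.TopCells
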