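import Pool.Agent.Lib.MP_4f753b_an.A6

/-! Row B1: the geometry of the chain: extremal points, two convex neighbourhoods of the singular
ball; the sign of the determinant. -/

open Set Metric Filter
open scoped ContDiff Topology RealInnerProductSpace

namespace Pool.Agent.TopCells

variable {V : Type} [NormedAddCommGroup V] [InnerProductSpace ℝ V]

/-- Interior points are not extremal. -/
theorem b1_lt (f : V ≃ₜ V) {c : V} {r : ℝ} {u : V} (hu : u ≠ 0) {x : V} (hx : x ∈ ball c r) :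
    (∃ y ∈ ball c r, ⟪u, f y⟫ < ⟪u, f x⟫) ∧ ∃ y ∈ ball c r, ⟪u, f x⟫ < ⟪u, f y⟫ := by
  have hu2 : 0 < ⟪u, u⟫ := by
    rw [real_inner_self_eq_norm_sq]
    positivity
  have h1 : Tendsto (fun s : ℝ => f.symm (f x + s • u)) (𝓝 0) (𝓝 x) := by
    have h2 : Continuous fun s : ℝ => f.symm (f x + s • u) := by
      have := f.symm.continuous
      fun_prop
    have h3 := h2.tendsto 0
    simpa using h3
  have h2 : ∀ᶠ s : ℝ in 𝓝 0, f.symm (f x + s • u) ∈ ball c r :=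
    h1.eventually (isOpen_ball.mem_nhds hx)
  obtain ⟨ε, hε, h3⟩ := Metric.eventually_nhds_iff_ball.1 h2
  constructor
  · refine ⟨_, h3 (-(ε / 2)) ?_, ?_⟩
    · rw [mem_ball_zero_iff, norm_neg, Real.norm_of_nonneg (by positivity)]
      linarith
    · rw [f.apply_symm_apply, inner_add_right, inner_smul_right]
      nlinarith
  · refine ⟨_, h3 (ε / 2) ?_, ?_⟩
    · rw [mem_ball_zero_iff, Real.norm_of_nonneg (by positivity)]
      linarith
    · rw [f.apply_symm_apply, inner_add_right, inner_smul_right]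
      nlinarith

/-- Strict convexity of the ball. -/
theorem b1_eq {c x v : V} {r τ : ℝ} (hτ : 0 < τ) (hv : ‖v - c‖ = r) (hx : ‖x - c‖ = r)
    (h : ‖x - (c + τ • (v - c))‖ ≤ (1 - τ) * r) (hτ1 : τ ≤ 1) : x = v := by
  have e1 : x - (c + τ • (v - c)) = (x - c) - τ • (v - c) := by abel
  rw [e1] at h
  have hr : 0 ≤ r := by rw [← hx]; exact norm_nonneg _
  have h1 : ‖(x - c) - τ • (v - c)‖ ^ 2 ≤ ((1 - τ) * r) ^ 2 := by
    have := norm_nonneg ((x - c) - τ • (v - c))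
    gcongr
  rw [norm_sub_sq_real, inner_smul_right, norm_smul, Real.norm_of_nonneg hτ.le, hv, hx] at h1
  have h2 : r ^ 2 ≤ ⟪x - c, v - c⟫ := by nlinarith
  have h3 : ‖(x - c) - (v - c)‖ ^ 2 ≤ 0 := by
    rw [norm_sub_sq_real, hv, hx]
    linarith
  have h4 : ‖(x - c) - (v - c)‖ = 0 := by
    have := norm_nonneg ((x - c) - (v - c))
    nlinarith
  rw [sub_sub_sub_cancel_right, norm_sub_eq_zero_iff] at h4
  exact h4

variable [FiniteDimensional ℝ V]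

/-- The geometry of the chain. -/
theorem exists_geometry (f : V ≃ₜ V) (c : V) {t r ρ : ℝ} (ht : 0 ≤ t) (htr : t < r) (hrρ : r < ρ)
    {u : V} (hu : u ≠ 0) : ∃ (x₁ x₂ z₁ z₂ : V) (r' δ : ℝ),
      ‖x₁ - c‖ = r ∧ ‖x₂ - c‖ = r ∧ 0 < δ ∧ ⟪u, f x₁⟫ < ⟪u, f x₂⟫ ∧
      closedBall c t ⊆ ball z₁ r' ∧ closedBall c t ⊆ ball z₂ r' ∧
      x₁ ∈ ball z₁ r' ∧ x₂ ∈ ball z₂ r' ∧
      closedBall z₁ r' ⊆ ball c ρ ∧ closedBall z₂ r' ⊆ ball c ρ ∧
      (∀ x ∈ closedBall z₁ r', ⟪u, f x₁⟫ - δ < ⟪u, f x⟫ ∧ ⟪u, f x⟫ < ⟪u, f x₂⟫ - δ) ∧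
      ∀ x ∈ closedBall z₂ r', ⟪u, f x₁⟫ + δ < ⟪u, f x⟫ ∧ ⟪u, f x⟫ < ⟪u, f x₂⟫ + δ := by
  have hr : 0 < r := lt_of_le_of_lt ht htr
  have hφ : Continuous fun x => ⟪u, f x⟫ := continuous_const.inner f.continuous
  have hne : (closedBall c r).Nonempty := ⟨c, mem_closedBall_self hr.le⟩
  obtain ⟨x₁, hx₁, hmin⟩ := (isCompact_closedBall c r).exists_isMinOn hne hφ.continuousOn
  obtain ⟨x₂, hx₂, hmax⟩ := (isCompact_closedBall c r).exists_isMaxOn hne hφ.continuousOn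
  have hmin' : ∀ x ∈ closedBall c r, ⟪u, f x₁⟫ ≤ ⟪u, f x⟫ := fun x hx => hmin hx
  have hmax' : ∀ x ∈ closedBall c r, ⟪u, f x⟫ ≤ ⟪u, f x₂⟫ := fun x hx => hmax hx
  have hin : ∀ x ∈ ball c r, ⟪u, f x₁⟫ < ⟪u, f x⟫ ∧ ⟪u, f x⟫ < ⟪u, f x₂⟫ := by
    intro x hx
    obtain ⟨⟨y, hy, h1⟩, ⟨y', hy', h2⟩⟩ := b1_lt f hu hx
    exact ⟨(hmin' y (ball_subset_closedBall hy)).trans_lt h1,
      h2.trans_le (hmax' y' (ball_subset_closedBall hy'))⟩
  have hn₁ : ‖x₁ - c‖ = r := by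
    refine le_antisymm (mem_closedBall_iff_norm.1 hx₁) ?_
    by_contra h
    exact lt_irrefl _ (hin x₁ (mem_ball_iff_norm.2 (not_le.1 h))).1
  have hn₂ : ‖x₂ - c‖ = r := by
    refine le_antisymm (mem_closedBall_iff_norm.1 hx₂) ?_
    by_contra h
    exact lt_irrefl _ (hin x₂ (mem_ball_iff_norm.2 (not_le.1 h))).2
  have hlt : ⟪u, f x₁⟫ < ⟪u, f x₂⟫ :=
    (hin c (mem_ball_self hr)).1.trans (hin c (mem_ball_self hr)).2
  -- the inner balls
  set τ : ℝ := (r - t) / (4 * r) with hτ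
  have hτ0 : 0 < τ := div_pos (by linarith) (by linarith)
  have hτr : 4 * (τ * r) = r - t := by rw [hτ]; field_simp
  have hτ1 : τ ≤ 1 := by
    by_contra h
    push Not at h
    nlinarith
  set r₀ : ℝ := (1 - τ) * r with hr₀
  have hr₀' : r₀ = r - τ * r := by rw [hr₀]; ring
  have hsub : ∀ v, ‖v - c‖ = r → closedBall (c + τ • (v - c)) r₀ ⊆ closedBall c r := by
    intro v hv x hx
    rw [mem_closedBall_iff_norm] at hx ⊢
    have e1 : x - c = (x - (c + τ • (v - c))) + τ • (v - c) := by abel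
    rw [e1]
    refine (norm_add_le _ _).trans ?_
    rw [norm_smul, Real.norm_of_nonneg hτ0.le, hv]
    linarith
  have ht₀ : ∀ v, ‖v - c‖ = r → closedBall c t ⊆ ball (c + τ • (v - c)) r₀ := by
    intro v hv x hx
    rw [mem_closedBall_iff_norm] at hx
    rw [mem_ball_iff_norm]
    have e1 : x - (c + τ • (v - c)) = (x - c) - τ • (v - c) := by abel
    rw [e1]
    refine (norm_sub_le _ _).trans_lt ?_
    rw [norm_smul, Real.norm_of_nonneg hτ0.le, hv]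
    linarith
  have hv₀ : ∀ v, ‖v - c‖ = r → v ∈ closedBall (c + τ • (v - c)) r₀ := by
    intro v hv
    rw [mem_closedBall_iff_norm]
    have e1 : v - (c + τ • (v - c)) = (1 - τ) • (v - c) := by module
    rw [e1, norm_smul, Real.norm_of_nonneg (by linarith), hv]
  have hlow : ∀ x ∈ closedBall (c + τ • (x₂ - c)) r₀, ⟪u, f x₁⟫ < ⟪u, f x⟫ := by
    intro x hx
    rcases eq_or_lt_of_le (mem_closedBall_iff_norm.1 (hsub x₂ hn₂ hx)) with h | h
    · rw [b1_eq hτ0 hn₂ h (mem_closedBall_iff_norm.1 hx) hτ1]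
      exact hlt
    · exact (hin x (mem_ball_iff_norm.2 h)).1
  have hhigh : ∀ x ∈ closedBall (c + τ • (x₁ - c)) r₀, ⟪u, f x⟫ < ⟪u, f x₂⟫ := by
    intro x hx
    rcases eq_or_lt_of_le (mem_closedBall_iff_norm.1 (hsub x₁ hn₁ hx)) with h | h
    · rw [b1_eq hτ0 hn₁ h (mem_closedBall_iff_norm.1 hx) hτ1]
      exact hlt
    · exact (hin x (mem_ball_iff_norm.2 h)).2
  obtain ⟨a, ha, hamin⟩ := (isCompact_closedBall (c + τ • (x₂ - c)) r₀).exists_isMinOn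
    ⟨x₂, hv₀ x₂ hn₂⟩ hφ.continuousOn
  obtain ⟨b, hb, hbmax⟩ := (isCompact_closedBall (c + τ • (x₁ - c)) r₀).exists_isMaxOn
    ⟨x₁, hv₀ x₁ hn₁⟩ hφ.continuousOn
  have hamin' : ∀ x ∈ closedBall (c + τ • (x₂ - c)) r₀, ⟪u, f a⟫ ≤ ⟪u, f x⟫ :=
    fun x hx => hamin hx
  have hbmax' : ∀ x ∈ closedBall (c + τ • (x₁ - c)) r₀, ⟪u, f x⟫ ≤ ⟪u, f b⟫ :=
    fun x hx => hbmax hx
  set δ : ℝ := min (⟪u, f a⟫ - ⟪u, f x₁⟫) (⟪u, f x₂⟫ - ⟪u, f b⟫) / 2 with hδ
  have hδa : 2 * δ ≤ ⟪u, f a⟫ - ⟪u, f x₁⟫ := by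
    rw [hδ]; have := min_le_left (⟪u, f a⟫ - ⟪u, f x₁⟫) (⟪u, f x₂⟫ - ⟪u, f b⟫); linarith
  have hδb : 2 * δ ≤ ⟪u, f x₂⟫ - ⟪u, f b⟫ := by
    rw [hδ]; have := min_le_right (⟪u, f a⟫ - ⟪u, f x₁⟫) (⟪u, f x₂⟫ - ⟪u, f b⟫); linarith
  have hδ0 : 0 < δ := by
    rw [hδ]
    have h1 := hlow a ha
    have h2 := hhigh b hb
    have := lt_min (sub_pos.2 h1) (sub_pos.2 h2)
    linarith
  -- open neighbourhoods
  have hU₁ : IsOpen {x | x ∈ ball c ρ ∧ ⟪u, f x₁⟫ - δ < ⟪u, f x⟫ ∧ ⟪u, f x⟫ < ⟪u, f x₂⟫ - δ} :=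
    isOpen_ball.inter ((isOpen_lt continuous_const hφ).inter (isOpen_lt hφ continuous_const))
  have hU₂ : IsOpen {x | x ∈ ball c ρ ∧ ⟪u, f x₁⟫ + δ < ⟪u, f x⟫ ∧ ⟪u, f x⟫ < ⟪u, f x₂⟫ + δ} :=
    isOpen_ball.inter ((isOpen_lt continuous_const hφ).inter (isOpen_lt hφ continuous_const))
  obtain ⟨ε₁, hε₁, h1⟩ := exists_thickening (isCompact_closedBall (c + τ • (x₁ - c)) r₀) hU₁ (by
    intro x hx
    have h3 := hsub x₁ hn₁ hx
    refine ⟨closedBall_subset_ball hrρ h3, ?_, ?_⟩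
    · have := hmin' x h3; linarith
    · have := hbmax' x hx; linarith)
  obtain ⟨ε₂, hε₂, h2⟩ := exists_thickening (isCompact_closedBall (c + τ • (x₂ - c)) r₀) hU₂ (by
    intro x hx
    have h3 := hsub x₂ hn₂ hx
    refine ⟨closedBall_subset_ball hrρ h3, ?_, ?_⟩
    · have := hamin' x hx; linarith
    · have := hmax' x h3; linarith)
  have hr₀0 : 0 ≤ r₀ := by nlinarith
  rw [thickening_closedBall hε₁ hr₀0] at h1
  rw [thickening_closedBall hε₂ hr₀0] at h2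
  set ε : ℝ := min ε₁ ε₂ / 2 with hε
  have hε0 : 0 < ε := by rw [hε]; have := lt_min hε₁ hε₂; linarith
  have hε1 : ε < ε₁ := by rw [hε]; have := min_le_left ε₁ ε₂; linarith
  have hε2 : ε < ε₂ := by rw [hε]; have := min_le_right ε₁ ε₂; linarith
  refine ⟨x₁, x₂, c + τ • (x₁ - c), c + τ • (x₂ - c), r₀ + ε, δ, hn₁, hn₂, hδ0, hlt,
    (ht₀ x₁ hn₁).trans (ball_subset_ball (by linarith)),
    (ht₀ x₂ hn₂).trans (ball_subset_ball (by linarith)),
    closedBall_subset_ball (by linarith) (hv₀ x₁ hn₁),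
    closedBall_subset_ball (by linarith) (hv₀ x₂ hn₂), ?_, ?_, ?_, ?_⟩
  · intro x hx
    exact (h1 (closedBall_subset_ball (by linarith) hx)).1
  · intro x hx
    exact (h2 (closedBall_subset_ball (by linarith) hx)).1
  · intro x hx
    exact (h1 (closedBall_subset_ball (by linarith) hx)).2
  · intro x hx
    exact (h2 (closedBall_subset_ball (by linarith) hx)).2

/-- The sign of the determinant is constant on a sphere. -/
theorem det_sign {f : V → V} {c : V} {r : ℝ} (hf : ∀ x ∈ sphere c r, LD f x)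
    (hrank : 1 < Module.finrank ℝ V) {x₁ x₂ : V} (h₁ : x₁ ∈ sphere c r) (h₂ : x₂ ∈ sphere c r) :
    0 < LinearMap.det (fderiv ℝ f x₁ : V →ₗ[ℝ] V) * LinearMap.det (fderiv ℝ f x₂ : V →ₗ[ℝ] V) := by
  have hconn : IsPreconnected (sphere c r) :=
    isPreconnected_sphere (by rw [← Module.finrank_eq_rank]; exact_mod_cast hrank) c r
  have hcont : ContinuousOn (fun x => (fderiv ℝ f x).det) (sphere c r) := by
    intro x hx
    have h1 : ContinuousAt (fderiv ℝ f) x :=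
      ((hf x hx).contDiffAt.fderiv_right (m := 0) (by simp)).continuousAt
    exact (ContinuousLinearMap.continuous_det.continuousAt.comp h1).continuousWithinAt
  have hne : ∀ x ∈ sphere c r, (fderiv ℝ f x).det ≠ 0 := by
    intro x hx
    obtain ⟨_, A, hA⟩ := hf x hx
    rw [hA.fderiv]
    exact (LinearEquiv.isUnit_det' A.toLinearEquiv).ne_zero
  have key : 0 < (fderiv ℝ f x₁).det * (fderiv ℝ f x₂).det := by
    by_contra hcon
    push Not at hcon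
    have h3 : (0 : ℝ) ∈ (fun x => (fderiv ℝ f x).det) '' sphere c r := by
      have himg := (hconn.image _ hcont).ordConnected
      rcases le_total 0 (fderiv ℝ f x₁).det with h | h
      · have h' : (fderiv ℝ f x₂).det ≤ 0 := by
          by_contra h5
          push Not at h5
          have := lt_of_le_of_ne h (hne x₁ h₁).symm
          nlinarith
        exact himg.out ⟨x₂, h₂, rfl⟩ ⟨x₁, h₁, rfl⟩ ⟨h', h⟩
      · have h' : 0 ≤ (fderiv ℝ f x₂).det := by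
          by_contra h5
          push Not at h5
          have := lt_of_le_of_ne h (hne x₁ h₁)
          nlinarith
        exact himg.out ⟨x₁, h₁, rfl⟩ ⟨x₂, h₂, rfl⟩ ⟨h, h'⟩
    obtain ⟨x, hx, h4⟩ := h3
    exact hne x hx h4
  exact key

end Pool.Agent.TopCells
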