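import Pool.Agent.Lib.MP_4f753b_an.B1

/-! Row B2: existence of the data of the chain. -/

open Set Metric Filter
open scoped ContDiff Topology RealInnerProductSpace

namespace Pool.Agent.TopCells

variable {V : Type} [NormedAddCommGroup V] [InnerProductSpace ℝ V]

omit [InnerProductSpace ℝ V] in
theorem exists_margin {K : Set V} (hK : IsCompact K) {φ : V → ℝ} (hφ : Continuous φ) {a b : ℝ}
    (h : ∀ x ∈ K, a < φ x ∧ φ x < b) : ∃ γ > 0, ∀ x ∈ K, a + γ < φ x ∧ φ x < b - γ := by
  rcases K.eq_empty_or_nonempty with rfl | hne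
  · exact ⟨1, one_pos, fun x hx => absurd hx (notMem_empty x)⟩
  · obtain ⟨x, hx, h1⟩ := hK.exists_isMinOn hne hφ.continuousOn
    obtain ⟨y, hy, h2⟩ := hK.exists_isMaxOn hne hφ.continuousOn
    have h3 := lt_min (sub_pos.2 (h x hx).1) (sub_pos.2 (h y hy).2)
    refine ⟨min (φ x - a) (b - φ y) / 2, by linarith, fun z hz => ?_⟩
    have h4 : φ x ≤ φ z := h1 hz
    have h5 : φ z ≤ φ y := h2 hz
    have h6 := min_le_left (φ x - a) (b - φ y)
    have h7 := min_le_right (φ x - a) (b - φ y)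
    constructor <;> linarith

theorem cj_apply (f s : V ≃ₜ V) (y : V) : cj f s y = f (s (f.symm y)) := rfl

variable [FiniteDimensional ℝ V]

theorem exists_dipole (f : V ≃ₜ V) (c : V) {t ρ : ℝ} (ht : 0 ≤ t) (htρ : t < ρ)
    (hf : ∀ x ∈ ball c ρ, x ∉ closedBall c t → LD f x) (hrank : 1 < Module.finrank ℝ V)
    {u : V} (hu : u ≠ 0) : ∃ (s s' : V ≃ₜ V) (P : V) (m D δ γ : ℝ) (x₁ : V) (κ : ℝ),
      IsDipole f s s' (closedBall c t) (ball c ρ) u P m D δ γ ∧ LD f x₁ ∧ 0 < κ ∧
      ∀ᶠ x in 𝓝ˢ (closedBall c t), s' x = x₁ + κ • (x - c) := by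
  obtain ⟨r, htr, hrρ⟩ := exists_between htρ
  obtain ⟨x₁, x₂, z₁, z₂, r', δ, hn₁, hn₂, hδ, hlt, hE₁, hE₂, hx₁, hx₂, hB₁, hB₂, hlev₁, hlev₂⟩ :=
    exists_geometry f c ht htr hrρ hu
  have hφ : Continuous fun x => ⟪u, f x⟫ := continuous_const.inner f.continuous
  have hLDsph : ∀ x ∈ sphere c r, LD f x := by
    intro x hx
    rw [mem_sphere_iff_norm] at hx
    refine hf x (mem_ball_iff_norm.2 (by linarith)) fun h => ?_
    rw [mem_closedBall_iff_norm] at h
    linarith
  have hLD₁ := hLDsph x₁ (mem_sphere_iff_norm.2 hn₁)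
  have hLD₂ := hLDsph x₂ (mem_sphere_iff_norm.2 hn₂)
  set P : V := f x₂ - f x₁ with hP
  set m : ℝ := ⟪u, f x₁⟫ with hm
  set D : ℝ := ⟪u, f x₂⟫ - ⟪u, f x₁⟫ with hD
  have hMD : ⟪u, f x₂⟫ = m + D := by rw [hD, hm]; ring
  -- the translated map
  let G : V → V := fun y => f.symm (f y + P)
  have hGc : Continuous G := f.symm.continuous.comp (f.continuous.add continuous_const)
  have hGx : G x₁ = x₂ := by
    change f.symm (f x₁ + P) = x₂
    rw [hP, add_sub_cancel, f.symm_apply_apply]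
  have hGinj : Function.Injective G := by
    intro a b hab
    have := f.symm.injective hab
    exact f.injective (add_right_cancel this)
  have hU₂ : IsOpen (ball z₂ r' ∩ {x | LD f x} ∩ (closedBall c t)ᶜ) :=
    (isOpen_ball.inter (isOpen_LD f)).inter isClosed_closedBall.isOpen_compl
  have hx₂U : x₂ ∈ ball z₂ r' ∩ {x | LD f x} ∩ (closedBall c t)ᶜ := by
    refine ⟨⟨hx₂, hLD₂⟩, fun h => ?_⟩
    rw [mem_closedBall_iff_norm] at h
    linarith
  have hN₁ : G ⁻¹' (ball z₂ r' ∩ {x | LD f x} ∩ (closedBall c t)ᶜ) ∩ {x | LD f x} ∩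
      {y | m - δ / 2 < ⟪u, f y⟫ ∧ ⟪u, f y⟫ < m + δ} ∈ 𝓝 x₁ := by
    refine inter_mem (inter_mem ((hU₂.preimage hGc).mem_nhds (by
      rw [mem_preimage, hGx]; exact hx₂U)) ((isOpen_LD f).mem_nhds hLD₁)) ?_
    refine IsOpen.mem_nhds ((isOpen_lt continuous_const hφ).inter (isOpen_lt hφ continuous_const))
      ⟨?_, ?_⟩
    · change m - δ / 2 < m
      linarith
    · change m < m + δ
      linarith
  obtain ⟨ε, hε, hεN⟩ := Metric.mem_nhds_iff.1 hN₁
  -- the first diffeomorphism
  obtain ⟨s', κ, hs', hκ0, hκ1, hs'E⟩ := exists_squeeze_to (isOpen_ball (x := z₁) (ε := r'))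
    (convex_ball _ _) (isCompact_closedBall c t) (convex_closedBall _ _) hE₁
    (mem_closedBall_self ht) hx₁ (div_pos hε (by linarith : 0 < t + 1))
  have hs'mem : ∀ x ∈ closedBall c t, s' x ∈ ball x₁ ε := by
    intro x hx
    rw [hs'E.self_of_nhdsSet x hx, mem_ball_iff_norm, add_sub_cancel_left, norm_smul,
      Real.norm_of_nonneg hκ0.le]
    rw [lt_div_iff₀ (by linarith)] at hκ1
    have := mem_closedBall_iff_norm.1 hx
    nlinarith [norm_nonneg (x - c)]
  set B : Set V := ball z₂ r' ∩ s' ⁻¹' ball x₁ ε with hB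
  have hBo : IsOpen B := isOpen_ball.inter (isOpen_ball.preimage s'.continuous)
  have hEB : closedBall c t ⊆ B := fun x hx => ⟨hE₂ hx, hs'mem x hx⟩
  have hcB : c ∈ B := hEB (mem_closedBall_self ht)
  have hs'c : s' c = x₁ := by
    rw [hs'E.self_of_nhdsSet c (mem_closedBall_self ht), sub_self, smul_zero, add_zero]
  set g : V → V := fun x => G (s' x) with hg
  have hgLD : ∀ x ∈ B, LD g x := by
    intro x hx
    have h1 := hεN hx.2
    have h2 : LD f (s' x) := h1.1.2
    have h3 : LD f (G (s' x)) := h1.1.1.1.2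
    have h4 : LD (fun y => f (s' y) + P) x :=
      LD.comp' (f := fun y => y + P) (g := fun y => f (s' y)) (LD.add_const _ _)
        (LD.comp' (f := f) (g := s') h2 (LD.of_isDiffeo hs'.1 x))
    exact LD.comp' (f := f.symm) (g := fun y => f (s' y) + P) (LD.symm' h3) h4
  have hgc : g c = x₂ := by rw [hg]; simp only; rw [hs'c, hGx]
  have hdet : 0 < LinearMap.det (fderiv ℝ g c : V →ₗ[ℝ] V) := by
    have hd1 : HasFDerivAt g (fderiv ℝ g c) c :=
      ((hgLD c hcB).contDiffAt.differentiableAt (by simp)).hasFDerivAt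
    have hd2 : HasFDerivAt f (fderiv ℝ f x₂) (g c) := by
      rw [hgc]
      exact (hLD₂.contDiffAt.differentiableAt (by simp)).hasFDerivAt
    have hd3 : HasFDerivAt f (fderiv ℝ f x₁) (s' c) := by
      rw [hs'c]
      exact (hLD₁.contDiffAt.differentiableAt (by simp)).hasFDerivAt
    have hd4 : HasFDerivAt s' (κ • ContinuousLinearMap.id ℝ V) c := by
      have h1 : (s' : V → V) =ᶠ[𝓝 c] fun x => x₁ + κ • (x - c) :=
        hs'E.filter_mono (nhds_le_nhdsSet (mem_closedBall_self ht))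
      refine HasFDerivAt.congr_of_eventuallyEq ?_ h1
      exact (((hasFDerivAt_id c).sub_const c).const_smul κ).const_add x₁
    have h5 := (hd3.comp c hd4).add_const P
    have h6 := hd2.comp c hd1
    have h7 : (f : V → V) ∘ g = fun x => ((f : V → V) ∘ s') x + P := by
      funext x
      simp only [hg, G, Function.comp, f.apply_symm_apply]
    rw [h7] at h6
    have h8 := h6.unique h5
    have h9 := congrArg (fun L : V →L[ℝ] V => LinearMap.det (L : V →ₗ[ℝ] V)) h8
    simp only [ContinuousLinearMap.toLinearMap_comp, LinearMap.det_comp] at h9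
    have h10 : LinearMap.det ((κ • ContinuousLinearMap.id ℝ V : V →L[ℝ] V) : V →ₗ[ℝ] V) =
        κ ^ Module.finrank ℝ V := by
      have : ((κ • ContinuousLinearMap.id ℝ V : V →L[ℝ] V) : V →ₗ[ℝ] V) =
          κ • (LinearMap.id : V →ₗ[ℝ] V) := rfl
      rw [this, LinearMap.det_smul, LinearMap.det_id, mul_one]
    rw [h10] at h9
    have h11 := det_sign hLDsph hrank (mem_sphere_iff_norm.2 hn₁) (mem_sphere_iff_norm.2 hn₂)
    have h12 : 0 < κ ^ Module.finrank ℝ V := by positivity
    by_contra hcon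
    push Not at hcon
    set d₁ := LinearMap.det (fderiv ℝ f x₁ : V →ₗ[ℝ] V)
    set d₂ := LinearMap.det (fderiv ℝ f x₂ : V →ₗ[ℝ] V)
    set dg := LinearMap.det (fderiv ℝ g c : V →ₗ[ℝ] V)
    have h13 : d₂ * d₂ * dg = (d₁ * d₂) * κ ^ Module.finrank ℝ V := by
      calc d₂ * d₂ * dg = d₂ * (d₂ * dg) := by ring
        _ = d₂ * (d₁ * κ ^ Module.finrank ℝ V) := by rw [h9]
        _ = _ := by ring
    have h14 : 0 < (d₁ * d₂) * κ ^ Module.finrank ℝ V := mul_pos h11 h12
    have h15 : d₂ * d₂ * dg ≤ 0 := mul_nonpos_of_nonneg_of_nonpos (mul_self_nonneg _) hcon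
    linarith
  obtain ⟨s, hs, hsg⟩ := exists_unfold (isOpen_ball (x := z₂) (ε := r')) (convex_ball _ _) hBo
    inter_subset_left (isCompact_closedBall c t) (convex_closedBall _ _) hEB
    (mem_closedBall_self ht) (g := g) (fun a _ b _ hab => s'.injective (hGinj hab)) hgLD
    (fun x hx => (hεN hx.2).1.1.1.1) hdet
  -- margins
  obtain ⟨_, K₁, hK₁, hK₁S, hK₁0⟩ := id hs'
  obtain ⟨_, K₂, hK₂, hK₂S, hK₂0⟩ := id hs
  obtain ⟨γ₁, hγ₁, hm₁⟩ := exists_margin hK₁ hφ (a := m - δ) (b := m + D - δ) fun x hx => by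
    have := hlev₁ x (ball_subset_closedBall (hK₁S hx))
    rw [hMD] at this
    exact this
  obtain ⟨γ₂, hγ₂, hm₂⟩ := exists_margin hK₂ hφ (a := m + δ) (b := m + D + δ) fun x hx => by
    have := hlev₂ x (ball_subset_closedBall (hK₂S hx))
    rw [hMD] at this
    exact this
  obtain ⟨γ₃, hγ₃, hm₃⟩ := exists_margin (isCompact_closedBall c t) hφ (a := m + δ)
    (b := m + D - δ) fun x hx => by
    have h1 := hlev₁ x (ball_subset_closedBall (hE₁ hx))
    have h2 := hlev₂ x (ball_subset_closedBall (hE₂ hx))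
    rw [hMD] at h1
    exact ⟨h2.1, h1.2⟩
  set γ : ℝ := min (min γ₁ γ₂) (min γ₃ (δ / 2)) with hγ
  have hγ0 : 0 < γ := lt_min (lt_min hγ₁ hγ₂) (lt_min hγ₃ (by linarith))
  have g1 : γ ≤ γ₁ := (min_le_left _ _).trans (min_le_left _ _)
  have g2 : γ ≤ γ₂ := (min_le_left _ _).trans (min_le_right _ _)
  have g3 : γ ≤ γ₃ := (min_le_right _ _).trans (min_le_left _ _)
  have g4 : γ ≤ δ / 2 := (min_le_right _ _).trans (min_le_right _ _)
  refine ⟨s, s', P, m, D, δ, γ, x₁, κ, ?_, hLD₁, hκ0, hs'E⟩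
  exact
    { E_ne := ⟨c, mem_closedBall_self ht⟩
      E_sub := closedBall_subset_ball htρ
      B_open := isOpen_ball
      f_LD := hf
      s_in := hs.mono (ball_subset_closedBall.trans hB₂)
      s'_in := hs'.mono (ball_subset_closedBall.trans hB₁)
      γ_pos := hγ0
      γ_lt := by linarith
      D_pos := by rw [hD]; linarith
      level_P := by rw [hP, inner_sub_right]
      h_id := by
        intro y hy
        rw [cj_apply, hK₁0, f.apply_symm_apply]
        intro h
        have h1 := hm₁ _ h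
        simp only [f.apply_symm_apply] at h1
        rcases hy with hy | hy <;> linarith
      k_id := by
        intro y hy
        rw [cj_apply, hK₂0, f.apply_symm_apply]
        intro h
        have h1 := hm₂ _ h
        simp only [f.apply_symm_apply] at h1
        rcases hy with hy | hy <;> linarith
      E_low := by
        intro x hx
        have := (hm₃ x hx).1
        linarith
      E_high := by
        intro x hx
        have := (hm₃ x hx).2
        linarith
      X_low := by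
        intro x hx
        have := (hεN (hs'mem x hx)).2.1
        linarith
      X_high := by
        intro x hx
        exact (hεN (hs'mem x hx)).2.2
      link := by
        intro x hx
        exact hsg.filter_mono (nhds_le_nhdsSet hx) }

end Pool.Agent.TopCells
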