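import Pool.Agent.Lib.MP_4f753b_an.B2

/-! Row B3: the chain. -/

open Set Metric Filter
open scoped ContDiff Topology RealInnerProductSpace

namespace Pool.Agent.TopCells

variable {V : Type} [NormedAddCommGroup V] [InnerProductSpace ℝ V]

omit [InnerProductSpace ℝ V] in
/-- If `e` is the identity on `Z`, then `e y ∈ Z` implies `e y = y`. -/
theorem eq_of_mem_fix {e : V ≃ₜ V} {Z : Set V} (h : ∀ y ∈ Z, e y = y) {y : V} (hy : e y ∈ Z) :
    e y = y := e.injective (h _ hy)

theorem chainJ_succ (h k : V ≃ₜ V) (P : V) (N : ℕ) (y : V) :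
    chainJ h k P (N + 1) y = k (h (chainJ h k P N (y + -P) + P)) := rfl

section

variable {f s s' : V ≃ₜ V} {E B : Set V} {u P : V} {m D δ γ : ℝ}

theorem IsDipole.lev_sub (H : IsDipole f s s' E B u P m D δ γ) (y : V) :
    ⟪u, y + -P⟫ = ⟪u, y⟫ - D := by
  rw [inner_add_right, inner_neg_right, H.level_P]
  ring

theorem IsDipole.lev_add (H : IsDipole f s s' E B u P m D δ γ) (y : V) :
    ⟪u, y + P⟫ = ⟪u, y⟫ + D := by
  rw [inner_add_right, H.level_P]

theorem IsDipole.J_low (H : IsDipole f s s' E B u P m D δ γ) (N : ℕ) :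
    ∀ y, ⟪u, y⟫ ≤ m - δ + γ → chainJ (cj f s') (cj f s) P N y = y := by
  have hγ := H.γ_pos
  have hγδ := H.γ_lt
  have hD := H.D_pos
  induction N with
  | zero => intro y hy; exact H.h_id y (Or.inl hy)
  | succ N ih =>
    intro y hy
    rw [chainJ_succ, ih _ (by rw [H.lev_sub]; linarith), neg_add_cancel_right,
      H.h_id y (Or.inl hy), H.k_id y (Or.inl (by linarith))]

/-- Below the level `m + δ` only `h` acts. -/
theorem IsDipole.J_eq (H : IsDipole f s s' E B u P m D δ γ) (N : ℕ) :
    ∀ y, ⟪u, chainJ (cj f s') (cj f s) P N y⟫ ≤ m + δ →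
      chainJ (cj f s') (cj f s) P N y = cj f s' y := by
  have hγ := H.γ_pos
  have hγδ := H.γ_lt
  have hD := H.D_pos
  obtain ⟨e, he⟩ := H.E_ne
  have hDδ : m + δ + γ < m + D - δ - γ := (H.E_low e he).trans (H.E_high e he)
  cases N with
  | zero => intro y _; rfl
  | succ N =>
    intro y hy
    rw [chainJ_succ] at hy ⊢
    set v := chainJ (cj f s') (cj f s) P N (y + -P) with hv
    have h1 : cj f s (cj f s' (v + P)) = cj f s' (v + P) :=
      eq_of_mem_fix (Z := {y | ⟪u, y⟫ ≤ m + δ + γ}) (fun y hy => H.k_id y (Or.inl hy))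
        (by rw [mem_ofPred_eq]; linarith)
    rw [h1] at hy ⊢
    -- the level of `v + P`
    have h2 : ⟪u, v + P⟫ < m + D - δ - γ := by
      by_contra h
      push Not at h
      have := H.h_id (v + P) (Or.inr h)
      rw [this] at hy
      linarith
    have h3 : ⟪u, v⟫ ≤ m - δ + γ := by
      rw [H.lev_add] at h2
      linarith
    have h4 : v = y + -P := by
      rw [hv]
      exact eq_of_mem_fix (Z := {y | ⟪u, y⟫ ≤ m - δ + γ}) (fun y hy => H.J_low N y hy)
        (by rw [mem_ofPred_eq, ← hv]; exact h3)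
    rw [h4, neg_add_cancel_right]

theorem IsDipole.J_eq' (H : IsDipole f s s' E B u P m D δ γ) (N : ℕ) (y : V)
    (h1 : ⟪u, y⟫ ≤ m + D - δ - γ) (h2 : ⟪u, cj f s' y⟫ ≤ m + δ + γ) :
    chainJ (cj f s') (cj f s) P N y = cj f s' y := by
  have hγ := H.γ_pos
  cases N with
  | zero => rfl
  | succ N =>
    rw [chainJ_succ, H.J_low N _ (by rw [H.lev_sub]; linarith), neg_add_cancel_right,
      H.k_id _ (Or.inl h2)]

/-- Near `f (E)` the chain is `h`. -/
theorem IsDipole.J_near (H : IsDipole f s s' E B u P m D δ γ) (N : ℕ) {x : V} (hx : x ∈ E) :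
    ∀ᶠ y in 𝓝 (f x), chainJ (cj f s') (cj f s) P N y = cj f s' y := by
  have hγ := H.γ_pos
  have h1 : ∀ᶠ y in 𝓝 (f x), ⟪u, y⟫ < m + D - δ - γ :=
    (isOpen_lt (continuous_const.inner continuous_id) continuous_const).mem_nhds (H.E_high x hx)
  have h2 : ∀ᶠ y in 𝓝 (f x), ⟪u, cj f s' y⟫ < m + δ := by
    refine (isOpen_lt (continuous_const.inner (cj f s').continuous) continuous_const).mem_nhds ?_
    rw [mem_ofPred_eq, cj_apply, f.symm_apply_apply]
    exact H.X_high x hx
  filter_upwards [h1, h2] with y hy1 hy2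
  exact H.J_eq' N y hy1.le (by linarith)

theorem IsDipole.J_val (H : IsDipole f s s' E B u P m D δ γ) (N : ℕ) {x : V} (hx : x ∈ E) :
    chainJ (cj f s') (cj f s) P N (f x) = f (s' x) := by
  rw [(H.J_near N hx).self_of_nhds, cj_apply, f.symm_apply_apply]

theorem IsDipole.s'_notMem (H : IsDipole f s s' E B u P m D δ γ) {x : V} (hx : x ∈ E) :
    s' x ∉ E := by
  intro h
  have h1 := H.X_high x hx
  have h2 := H.E_low _ h
  have := H.γ_pos
  linarith

/-- `s a = x ∈ E` means that `a` is the image of `x` under the linking map. -/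
theorem IsDipole.eq_link (H : IsDipole f s s' E B u P m D δ γ) {a : V} (h : s a ∈ E) :
    f a = f (s' (s a)) + P := by
  have h1 := (H.link _ h).self_of_nhds
  have h2 := s.injective h1
  rw [← h2, f.apply_symm_apply, h2]

theorem IsDipole.s_notMem (H : IsDipole f s s' E B u P m D δ γ) {x : V} (hx : x ∈ E) :
    s x ∉ E := by
  intro h
  have h1 := H.eq_link h
  have h2 := H.E_high x hx
  rw [h1, H.lev_add] at h2
  have h3 := H.X_low _ h
  have := H.γ_pos
  linarith

end

variable [FiniteDimensional ℝ V]
variable {f s s' : V ≃ₜ V} {E B : Set V} {u P : V} {m D δ γ : ℝ}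

/-- `f ∘ a ∘ f⁻¹` is a local diffeomorphism off the critical points. -/
theorem cj_LD {a : V ≃ₜ V} (ha : DiffIn B a) (hf : ∀ x ∈ B, x ∉ E → LD f x) {y : V}
    (h1 : f.symm y ∉ E) (h2 : a (f.symm y) ∉ E) : LD (cj f a) y := by
  by_cases hB : f.symm y ∈ B
  · have h3 : LD f.symm y := LD.symm' (hf _ hB h1)
    have h4 : LD f (a (f.symm y)) := hf _ (ha.mem_iff.2 hB) h2
    exact LD.comp' (f := f) (g := fun y => a (f.symm y)) h4
      (LD.comp' (f := a) (g := f.symm) (LD.of_isDiffeo ha.1 _) h3)
  · obtain ⟨_, K, hK, hKB, hK0⟩ := ha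
    refine (LD.id y).congr ?_
    have h3 : ∀ᶠ z in 𝓝 y, f.symm z ∉ K :=
      f.symm.continuous.continuousAt.eventually
        (hK.isClosed.isOpen_compl.mem_nhds fun h => hB (hKB h))
    filter_upwards [h3] with z hz
    rw [cj_apply, hK0 _ hz, f.apply_symm_apply]

theorem IsDipole.kh_LD (H : IsDipole f s s' E B u P m D δ γ) {y : V}
    (h : s' (f.symm y) ∈ E) : LD (fun z => cj f s (cj f s' z)) y := by
  have hxB : f.symm y ∈ B := H.s'_in.mem_iff.1 (H.E_sub h)
  have hxE : f.symm y ∉ E := fun h' => H.s'_notMem h' h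
  have h1 : LD f.symm y := LD.symm' (H.f_LD _ hxB hxE)
  have h2 : LD f (s (s' (f.symm y))) :=
    H.f_LD _ (H.s_in.mem_iff.2 (H.E_sub h)) (H.s_notMem h)
  have h3 : (fun z => cj f s (cj f s' z)) = fun z => f (s (s' (f.symm z))) := by
    funext z
    rw [cj_apply, cj_apply, f.symm_apply_apply]
  rw [h3]
  exact LD.comp' (f := f) (g := fun y => s (s' (f.symm y))) h2
    (LD.comp' (f := s) (g := fun y => s' (f.symm y)) (LD.of_isDiffeo H.s_in.1 _)
      (LD.comp' (f := s') (g := f.symm) (LD.of_isDiffeo H.s'_in.1 _) h1))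

/-- The chain is a local diffeomorphism off `f (E)` and off the far end. -/
theorem IsDipole.J_LD (H : IsDipole f s s' E B u P m D δ γ) (N : ℕ) :
    ∀ y, f.symm y ∉ E → (∀ x, s' x ∈ E → y ≠ f x + (N : ℝ) • P) →
      LD (chainJ (cj f s') (cj f s) P N) y := by
  have hγ := H.γ_pos
  have hγδ := H.γ_lt
  have hD := H.D_pos
  induction N with
  | zero =>
    intro y hy hY
    refine cj_LD H.s'_in H.f_LD hy fun h => ?_
    have := hY _ h
    rw [Nat.cast_zero, zero_smul, add_zero, f.apply_symm_apply] at this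
    exact this rfl
  | succ N ih =>
    intro y hy hY
    set J := chainJ (cj f s') (cj f s) P N with hJ
    have hsucc : ∀ z, chainJ (cj f s') (cj f s) P (N + 1) z =
        cj f s (cj f s' (J (z + -P) + P)) := fun z => rfl
    rcases lt_or_ge ⟪u, y⟫ (m + D - δ + γ) with hcase | hcase
    · -- low level
      have h1 : ∀ᶠ z in 𝓝 y, chainJ (cj f s') (cj f s) P (N + 1) z = cj f s (cj f s' z) := by
        have h2 : ∀ᶠ z in 𝓝 y, ⟪u, z⟫ < m + D - δ + γ :=
          (isOpen_lt (continuous_const.inner continuous_id) continuous_const).mem_nhds hcase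
        filter_upwards [h2] with z hz
        rw [hsucc, hJ, H.J_low N _ (by rw [H.lev_sub]; linarith), neg_add_cancel_right]
      by_cases hs : s' (f.symm y) ∈ E
      · exact (H.kh_LD hs).congr h1
      · have h3 : LD (cj f s') y := cj_LD H.s'_in H.f_LD hy hs
        have h4 : f.symm (cj f s' y) = s' (f.symm y) := by rw [cj_apply, f.symm_apply_apply]
        have h5 : LD (cj f s) (cj f s' y) := by
          refine cj_LD H.s_in H.f_LD (by rw [h4]; exact hs) fun h => ?_
          have h6 := H.eq_link h
          rw [f.apply_symm_apply] at h6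
          have h7 := H.X_low _ h
          have h8 : m + D - δ + γ < ⟪u, cj f s' y⟫ := by
            rw [h6, H.lev_add]
            linarith
          have h9 : cj f s' y = y :=
            eq_of_mem_fix (Z := {y | m + D - δ - γ ≤ ⟪u, y⟫}) (fun y hy => H.h_id y (Or.inr hy))
              (by rw [mem_ofPred_eq]; linarith)
          rw [h9] at h8
          linarith
        exact (LD.comp' (f := cj f s) (g := cj f s') h5 h3).congr h1
    · -- high level
      set y' := y + -P with hy'
      have hlev' : m - δ + γ ≤ ⟪u, y'⟫ := by rw [hy', H.lev_sub]; linarith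
      have hJlev : m - δ + γ ≤ ⟪u, J y'⟫ := by
        by_contra h
        push Not at h
        have h1 : J y' = y' :=
          eq_of_mem_fix (Z := {y | ⟪u, y⟫ ≤ m - δ + γ}) (fun y hy => H.J_low N y hy)
            (by rw [mem_ofPred_eq]; exact h.le)
        rw [h1] at h
        linarith
      have hwlev : m + D - δ - γ < ⟪u, J y' + P⟫ := by rw [H.lev_add]; linarith
      have hcont : Continuous fun z => J (z + -P) + P := by
        have := J.continuous
        fun_prop
      have h1 : ∀ᶠ z in 𝓝 y, chainJ (cj f s') (cj f s) P (N + 1) z = cj f s (J (z + -P) + P) := by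
        have h2 : ∀ᶠ z in 𝓝 y, m + D - δ - γ < ⟪u, J (z + -P) + P⟫ :=
          (isOpen_lt continuous_const (continuous_const.inner hcont)).mem_nhds hwlev
        filter_upwards [h2] with z hz
        rw [hsucc, H.h_id _ (Or.inr hz.le)]
      by_cases hyE : f.symm y' ∈ E
      · -- the link
        refine (LD.add_const (-P) y).congr ?_
        have h2 : ∀ᶠ z in 𝓝 y, J (z + -P) = cj f s' (z + -P) := by
          have h3 := H.J_near N hyE
          rw [f.apply_symm_apply] at h3
          have h4 : Tendsto (fun z : V => z + -P) (𝓝 y) (𝓝 y') :=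
            (continuous_id.add continuous_const).tendsto y
          exact h4.eventually h3
        have h5 : ∀ᶠ z in 𝓝 y, s (f.symm (f (s' (f.symm (z + -P))) + P)) = f.symm (z + -P) := by
          have h3 := H.link _ hyE
          have h4 : Tendsto (fun z : V => f.symm (z + -P)) (𝓝 y) (𝓝 (f.symm y')) :=
            (f.symm.continuous.comp (continuous_id.add continuous_const)).tendsto y
          exact h4.eventually h3
        filter_upwards [h1, h2, h5] with z hz1 hz2 hz3
        rw [hz1, hz2, cj_apply, cj_apply, hz3, f.apply_symm_apply]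
      · have h2 : LD J y' := by
          refine ih y' hyE fun x hx h => hY x hx ?_
          have : y = y' + P := by rw [hy', neg_add_cancel_right]
          rw [this, h]
          push_cast
          module
        have h3 : LD (fun z => J (z + -P) + P) y :=
          LD.comp' (f := fun z => z + P) (g := fun z => J (z + -P)) (LD.add_const _ _)
            (LD.comp' (f := J) (g := fun z => z + -P) h2 (LD.add_const _ _))
        have h4 : LD (cj f s) (J y' + P) := by
          refine cj_LD H.s_in H.f_LD (fun h => ?_) fun h => ?_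
          · have h5 := H.E_high _ h
            rw [f.apply_symm_apply] at h5
            linarith
          · have h5 := H.eq_link h
            rw [f.apply_symm_apply] at h5
            have h6 := add_right_cancel h5
            rw [← H.J_val N h] at h6
            have h7 := J.injective h6
            rw [h7, f.symm_apply_apply] at hyE
            exact hyE h
        exact (LD.comp' (f := cj f s) (g := fun z => J (z + -P) + P) h4 h3).congr h1

omit [FiniteDimensional ℝ V] in
/-- The displacement of the chain is bounded. -/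
theorem IsDipole.J_disp (H : IsDipole f s s' E B u P m D δ γ) {Δ : ℝ}
    (hh : ∀ y, ‖cj f s' y - y‖ ≤ Δ) (hk : ∀ y, ‖cj f s y - y‖ ≤ Δ) (N : ℕ) :
    ∀ y, ‖chainJ (cj f s') (cj f s) P N y - y‖ ≤ 2 * Δ := by
  have hγ := H.γ_pos
  have hγδ := H.γ_lt
  have hD := H.D_pos
  have hΔ : 0 ≤ Δ := (norm_nonneg _).trans (hh 0)
  induction N with
  | zero => intro y; exact (hh y).trans (by linarith)
  | succ N ih =>
    intro y
    rw [chainJ_succ]
    set v := chainJ (cj f s') (cj f s) P N (y + -P) with hv
    by_cases hcase : v = y + -P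
    · rw [hcase, neg_add_cancel_right]
      have h1 := hh y
      have h2 := hk (cj f s' y)
      calc ‖cj f s (cj f s' y) - y‖
          = ‖(cj f s (cj f s' y) - cj f s' y) + (cj f s' y - y)‖ := by congr 1; abel
        _ ≤ ‖cj f s (cj f s' y) - cj f s' y‖ + ‖cj f s' y - y‖ := norm_add_le _ _
        _ ≤ 2 * Δ := by linarith
    · have hvlev : m - δ + γ < ⟪u, v⟫ := by
        by_contra h
        push Not at h
        exact hcase (eq_of_mem_fix (Z := {y | ⟪u, y⟫ ≤ m - δ + γ}) (fun y hy => H.J_low N y hy)
          (by rw [mem_ofPred_eq]; exact h))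
      have h1 : cj f s' (v + P) = v + P := H.h_id _ (Or.inr (by rw [H.lev_add]; linarith))
      rw [h1]
      have h0 : ∀ w : V, v + P - y = v - (y + -P) := fun _ => by abel
      by_cases hk1 : cj f s (v + P) = v + P
      · rw [hk1, h0 0]
        exact ih (y + -P)
      · have h2 : ⟪u, v⟫ ≤ m + δ := by
          by_contra h
          push Not at h
          exact hk1 (H.k_id _ (Or.inr (by rw [H.lev_add]; linarith)))
        have h3 : v = cj f s' (y + -P) := H.J_eq N _ (by rw [← hv]; exact h2)
        have h4 : ‖v - (y + -P)‖ ≤ Δ := by rw [h3]; exact hh _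
        calc ‖cj f s (v + P) - y‖ = ‖(cj f s (v + P) - (v + P)) + (v - (y + -P))‖ := by
              congr 1; abel
          _ ≤ ‖cj f s (v + P) - (v + P)‖ + ‖v - (y + -P)‖ := norm_add_le _ _
          _ ≤ 2 * Δ := by linarith [hk (v + P)]

omit [FiniteDimensional ℝ V] in
/-- The support of the chain. -/
theorem IsDipole.J_supp (H : IsDipole f s s' E B u P m D δ γ) (N : ℕ) :
    ∀ y, chainJ (cj f s') (cj f s) P N y ≠ y → ∃ j : ℕ, ∃ x ∈ B, y = f x + (j : ℝ) • P := by
  induction N with
  | zero =>
    intro y hy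
    refine ⟨0, f.symm y, ?_, ?_⟩
    · by_contra h
      apply hy
      change cj f s' y = y
      rw [cj_apply, H.s'_in.id_off h, f.apply_symm_apply]
    · rw [Nat.cast_zero, zero_smul, add_zero, f.apply_symm_apply]
  | succ N ih =>
    intro y hy
    by_cases h : chainJ (cj f s') (cj f s) P N (y + -P) = y + -P
    · refine ⟨0, f.symm y, ?_, ?_⟩
      · by_contra h2
        apply hy
        rw [chainJ_succ, h, neg_add_cancel_right, cj_apply f s' y, H.s'_in.id_off h2,
          f.apply_symm_apply, cj_apply, H.s_in.id_off h2, f.apply_symm_apply]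
      · rw [Nat.cast_zero, zero_smul, add_zero, f.apply_symm_apply]
    · obtain ⟨j, x, hx, h2⟩ := ih _ h
      refine ⟨j + 1, x, hx, ?_⟩
      have : y = (y + -P) + P := by rw [neg_add_cancel_right]
      rw [this, h2]
      push_cast
      module

end Pool.Agent.TopCells
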