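import Pool.Agent.Lib.MP_4f753b_an.B3

/-! Row C1: a linear isometry with a prescribed value and a prescribed sign of the determinant. -/

open Set Metric Filter Module
open scoped ContDiff Topology RealInnerProductSpace

namespace Pool.Agent.TopCells

variable {V : Type} [NormedAddCommGroup V] [InnerProductSpace ℝ V] [FiniteDimensional ℝ V]

theorem exists_perp (hrank : 1 < finrank ℝ V) (v : V) : ∃ w : V, ‖w‖ = 1 ∧ ⟪v, w⟫ = 0 := by
  have h1 : (ℝ ∙ v)ᗮ ≠ ⊥ := by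
    intro h
    have h2 := Submodule.finrank_add_finrank_orthogonal (ℝ ∙ v)
    rw [h, finrank_bot, add_zero] at h2
    have h3 := finrank_span_le_card (R := ℝ) ({v} : Set V)
    simp at h3
    omega
  obtain ⟨w, hw, hw0⟩ := Submodule.exists_mem_ne_zero_of_ne_bot h1
  refine ⟨(‖w‖⁻¹ : ℝ) • w, ?_, ?_⟩
  · rw [norm_smul, norm_inv, norm_norm, inv_mul_cancel₀ (norm_ne_zero_iff.2 hw0)]
  · rw [inner_smul_right, Submodule.mem_orthogonal_singleton_iff_inner_right.1 hw, mul_zero]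

theorem exists_rotation (hrank : 1 < finrank ℝ V) {P v : V} (hv : ‖v‖ = 1) {d : ℝ} (hd : d ≠ 0) :
    ∃ R : V ≃ₗᵢ[ℝ] V, R P = ‖P‖ • v ∧
      0 < LinearMap.det ((R.toContinuousLinearEquiv : V →L[ℝ] V) : V →ₗ[ℝ] V) * d := by
  have h1 : ‖P‖ = ‖‖P‖ • v‖ := by rw [norm_smul, norm_norm, hv, mul_one]
  set R₁ : V ≃ₗᵢ[ℝ] V := (ℝ ∙ (P - ‖P‖ • v))ᗮ.reflection with hR₁
  have h2 : R₁ P = ‖P‖ • v := Submodule.reflection_sub h1
  have h3 : LinearMap.det ((R₁.toContinuousLinearEquiv : V →L[ℝ] V) : V →ₗ[ℝ] V) ≠ 0 :=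
    (LinearEquiv.isUnit_det' R₁.toLinearEquiv).ne_zero
  by_cases h4 : 0 < LinearMap.det ((R₁.toContinuousLinearEquiv : V →L[ℝ] V) : V →ₗ[ℝ] V) * d
  · exact ⟨R₁, h2, h4⟩
  obtain ⟨w, hw, hvw⟩ := exists_perp hrank v
  set R₂ : V ≃ₗᵢ[ℝ] V := (ℝ ∙ w)ᗮ.reflection with hR₂
  have h5 : R₂ v = v := by
    rw [hR₂]
    apply Submodule.reflection_mem_subspace_eq_self
    rw [Submodule.mem_orthogonal_singleton_iff_inner_right, real_inner_comm]
    exact hvw
  have h6 : LinearMap.det ((R₂.toContinuousLinearEquiv : V →L[ℝ] V) : V →ₗ[ℝ] V) = -1 := by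
    have h7 := (ℝ ∙ w)ᗮ.det_reflection
    rw [Submodule.orthogonal_orthogonal, finrank_span_singleton
      (by intro h; rw [h, norm_zero] at hw; exact zero_ne_one hw), pow_one] at h7
    exact h7
  refine ⟨R₁.trans R₂, ?_, ?_⟩
  · rw [LinearIsometryEquiv.trans_apply, h2, map_smul, h5]
  · have h7 : LinearMap.det (((R₁.trans R₂).toContinuousLinearEquiv : V →L[ℝ] V) : V →ₗ[ℝ] V)
        = LinearMap.det ((R₂.toContinuousLinearEquiv : V →L[ℝ] V) : V →ₗ[ℝ] V) *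
          LinearMap.det ((R₁.toContinuousLinearEquiv : V →L[ℝ] V) : V →ₗ[ℝ] V) := by
      rw [← LinearMap.det_comp]
      rfl
    rw [h7, h6]
    rcases lt_or_gt_of_ne (mul_ne_zero h3 hd) with h8 | h8
    · linarith
    · exact absurd h8 h4

end Pool.Agent.TopCells
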