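import Pool.Agent.Lib.MP_4f753b_an.C1

/-! Row C2: the step: removing one ball from the set of bad points, at the price of a map which
is small outside the ball. -/

open Set Metric Filter Module
open scoped ContDiff Topology RealInnerProductSpace

namespace Pool.Agent.TopCells

variable {V : Type} [NormedAddCommGroup V] [InnerProductSpace ℝ V] [FiniteDimensional ℝ V]

/-- The affine homeomorphism `y ↦ c + A (y - a)`. -/
noncomputable def aff (A : V ≃L[ℝ] V) (a c : V) : V ≃ₜ V where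
  toFun y := c + A (y - a)
  invFun z := a + A.symm (z - c)
  left_inv y := by simp
  right_inv z := by simp
  continuous_toFun := by fun_prop
  continuous_invFun := by fun_prop

omit [FiniteDimensional ℝ V] in
theorem aff_apply (A : V ≃L[ℝ] V) (a c y : V) : aff A a c y = c + A (y - a) := rfl

omit [FiniteDimensional ℝ V] in
theorem aff_symm_apply (A : V ≃L[ℝ] V) (a c z : V) :
    (aff A a c).symm z = a + A.symm (z - c) := rfl

omit [FiniteDimensional ℝ V] in
theorem aff_LD (A : V ≃L[ℝ] V) (a c y : V) : LD (aff A a c) y := LD.affine A c a y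

omit [FiniteDimensional ℝ V] in
theorem aff_symm_LD (A : V ≃L[ℝ] V) (a c z : V) : LD (aff A a c).symm z := LD.affine A.symm a c z

theorem exists_step (f : V ≃ₜ V) {c v : V} (hv : ‖v‖ = 1) {t ρ : ℝ} (ht : 0 ≤ t) (htρ : t < ρ)
    (hf : ∀ x ∈ ball c ρ, x ∉ closedBall c t → LD f x) (hrank : 1 < finrank ℝ V)
    {η : ℝ} (hη : 0 < η) (L : ℝ) : ∃ T : V ≃ₜ V,
      (∀ x, ∃ x', ‖x' - x‖ ≤ η ∧ (T x = x' ∨ (x' ∈ ball c ρ ∧ T x ∈ ball c ρ))) ∧
      (∀ x, T x ≠ x → x ∈ ball c ρ ∨ ∃ s : ℝ, 0 ≤ s ∧ ‖x - (c + s • v)‖ < η) ∧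
      ∀ x, ‖x - c‖ < L → (T x ∈ closedBall c t ∨ LD f (T x)) → LD (fun y => f (T y)) x := by
  have hv0 : v ≠ 0 := by
    intro h
    rw [h, norm_zero] at hv
    exact zero_ne_one hv
  have hρ : 0 < ρ := lt_of_le_of_lt ht htρ
  obtain ⟨s, s', P, m, D, δ, γ, x₁, κ, H, hx₁, hκ, hs'⟩ := exists_dipole f c ht htρ hf hrank hv0
  have hcE : c ∈ closedBall c t := mem_closedBall_self ht
  have hs'c : s' c = x₁ := by
    have := hs'.self_of_nhdsSet c hcE
    simpa using this
  have hx₁B : x₁ ∈ ball c ρ := by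
    rw [← hs'c, H.s'_in.mem_iff]
    exact mem_ball_self hρ
  have hP : P ≠ 0 := by
    intro h
    have h1 := H.level_P
    rw [h, inner_zero_right] at h1
    exact absurd h1 (ne_of_lt H.D_pos)
  obtain ⟨Df, hDf⟩ := hx₁.2
  have hd : LinearMap.det ((Df : V →L[ℝ] V) : V →ₗ[ℝ] V) ≠ 0 :=
    (LinearEquiv.isUnit_det' Df.toLinearEquiv).ne_zero
  obtain ⟨R, hRP, hRd⟩ := exists_rotation hrank (P := P) hv hd
  -- the diameter of `f B`
  obtain ⟨Δ, hΔ0, hΔ⟩ : ∃ Δ : ℝ, 0 ≤ Δ ∧ ∀ a ∈ ball c ρ, ∀ b ∈ ball c ρ, ‖f a - f b‖ ≤ Δ := by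
    have h1 : Bornology.IsBounded (f '' closedBall c ρ) :=
      ((isCompact_closedBall c ρ).image f.continuous).isBounded
    obtain ⟨C, hC⟩ := Metric.isBounded_iff.1 h1
    refine ⟨max C 0, le_max_right _ _, fun a ha b hb => ?_⟩
    rw [← dist_eq_norm]
    exact (hC (mem_image_of_mem f (ball_subset_closedBall ha))
      (mem_image_of_mem f (ball_subset_closedBall hb))).trans (le_max_left _ _)
  have hcj : ∀ a : V ≃ₜ V, DiffIn (ball c ρ) a → ∀ y, ‖cj f a y - y‖ ≤ Δ := by
    intro a ha y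
    rw [cj_apply]
    by_cases h1 : f.symm y ∈ ball c ρ
    · have h2 := hΔ (a (f.symm y)) (ha.mem_iff.2 h1) (f.symm y) h1
      rwa [f.apply_symm_apply] at h2
    · rw [ha.id_off h1, f.apply_symm_apply, sub_self, norm_zero]
      exact hΔ0
  -- the scale `μ`
  set μ : ℝ := min η ρ / (2 * Δ + 1) with hμdef
  have hμ : 0 < μ := div_pos (lt_min hη hρ) (by linarith)
  have hμ1 : μ * (2 * Δ + 1) = min η ρ := div_mul_cancel₀ _ (by linarith : (2 * Δ + 1) ≠ 0)
  have hμη : μ * (2 * Δ) < η := by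
    have := min_le_left η ρ
    nlinarith
  have hμρ : μ * Δ < ρ := by
    have := min_le_right η ρ
    nlinarith [mul_nonneg hμ.le hΔ0]
  have hμΔ : μ * Δ < η := by nlinarith [mul_nonneg hμ.le hΔ0]
  set A : V ≃L[ℝ] V := R.toContinuousLinearEquiv.trans
    (LinearEquiv.smulOfNeZero ℝ V μ hμ.ne').toContinuousLinearEquiv with hAdef
  have hA : ∀ y, A y = μ • R y := fun y => rfl
  have hAn : ∀ y, ‖A y‖ = μ * ‖y‖ := fun y => by
    rw [hA, norm_smul, Real.norm_of_nonneg hμ.le, R.norm_map]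
  set σ : V ≃ₜ V := aff A (f x₁) c with hσ
  have hσa : ∀ y, σ y = c + A (y - f x₁) := fun y => rfl
  have hσsub : ∀ y z, σ y - σ z = A (y - z) := by
    intro y z
    rw [hσa, hσa, add_sub_add_left_eq_sub, ← map_sub, sub_sub_sub_cancel_right]
  -- the length of the chain
  obtain ⟨N, hN⟩ : ∃ N : ℕ, L + μ * Δ < μ * ‖P‖ * N := by
    obtain ⟨N, hN⟩ := exists_nat_gt ((L + μ * Δ) / (μ * ‖P‖))
    refine ⟨N, ?_⟩
    rw [div_lt_iff₀ (mul_pos hμ (norm_pos_iff.2 hP))] at hN
    linarith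
  set J := chainJ (cj f s') (cj f s) P N with hJ
  -- the unfolding
  have hB₀ : IsOpen {x | x ∈ ball c ρ ∧ LD f (s' x)} :=
    isOpen_ball.inter ((isOpen_LD f).preimage s'.continuous)
  have hKB : closedBall c t ⊆ {x | x ∈ ball c ρ ∧ LD f (s' x)} := by
    intro x hx
    have hxB := H.E_sub hx
    exact ⟨hxB, H.f_LD _ (H.s'_in.mem_iff.2 hxB) (H.s'_notMem hx)⟩
  have hdet : 0 < LinearMap.det (fderiv ℝ (fun x => σ (f (s' x))) c : V →ₗ[ℝ] V) := by
    have h1 : HasFDerivAt s' (κ • ContinuousLinearMap.id ℝ V) c := by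
      have h2 : HasFDerivAt (fun x => x₁ + κ • (x - c)) (κ • ContinuousLinearMap.id ℝ V) c := by
        have h3 := (((hasFDerivAt_id (𝕜 := ℝ) c).sub_const c).const_smul κ).const_add x₁
        simpa using h3
      exact h2.congr_of_eventuallyEq (hs'.filter_mono (nhds_le_nhdsSet hcE))
    have h2 : HasFDerivAt f (Df : V →L[ℝ] V) (s' c) := by rw [hs'c]; exact hDf
    have h3 : HasFDerivAt σ (A : V →L[ℝ] V) (f (s' c)) := by
      have h4 := (A : V →L[ℝ] V).hasFDerivAt.comp (f (s' c))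
        ((hasFDerivAt_id (f (s' c))).sub_const (f x₁))
      have h5 : HasFDerivAt (fun y => c + A (y - f x₁)) (A : V →L[ℝ] V) (f (s' c)) := by
        simpa using h4.const_add c
      exact h5
    have h4 := h3.comp c (h2.comp c h1)
    have h5 : fderiv ℝ (fun x => σ (f (s' x))) c =
        (A : V →L[ℝ] V).comp ((Df : V →L[ℝ] V).comp (κ • ContinuousLinearMap.id ℝ V)) :=
      h4.fderiv
    rw [h5]
    have h6 : (((A : V →L[ℝ] V).comp ((Df : V →L[ℝ] V).comp
        (κ • ContinuousLinearMap.id ℝ V)) : V →L[ℝ] V) : V →ₗ[ℝ] V) =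
        μ • (κ • (((R.toContinuousLinearEquiv : V →L[ℝ] V) : V →ₗ[ℝ] V) ∘ₗ
          ((Df : V →L[ℝ] V) : V →ₗ[ℝ] V))) := by
      ext x
      simp [hA, smul_smul, mul_comm]
    rw [h6, LinearMap.det_smul, LinearMap.det_smul, LinearMap.det_comp]
    positivity
  have hmaps : MapsTo (fun x => σ (f (s' x))) {x | x ∈ ball c ρ ∧ LD f (s' x)} (ball c ρ) := by
    intro x hx
    have h1 := hΔ (s' x) (H.s'_in.mem_iff.2 hx.1) x₁ hx₁B
    rw [mem_ball, dist_eq_norm]
    show ‖σ (f (s' x)) - c‖ < ρ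
    rw [hσa, add_sub_cancel_left, hAn]
    exact lt_of_le_of_lt (mul_le_mul_of_nonneg_left h1 hμ.le) hμρ
  obtain ⟨s₀, hs₀, hs₀E⟩ := exists_unfold isOpen_ball (convex_ball c ρ) hB₀ (fun x hx => hx.1)
    (isCompact_closedBall c t) (convex_closedBall c t) hKB hcE
    (g := fun x => σ (f (s' x)))
    (fun x _ y _ h => s'.injective (f.injective (σ.injective h)))
    (fun x hx => (aff_LD A (f x₁) c _).comp' (hx.2.comp' (LD.of_isDiffeo H.s'_in.1 x)))
    hmaps hdet
  -- the map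
  set T : V ≃ₜ V := (σ.symm.trans (J.trans σ)).trans s₀ with hT
  have hTa : ∀ x, T x = s₀ (σ (J (σ.symm x))) := fun x => rfl
  have hJ' : ∀ x, ‖σ (J (σ.symm x)) - x‖ ≤ η := by
    intro x
    have h1 := H.J_disp (hcj s' H.s'_in) (hcj s H.s_in) N (σ.symm x)
    have h2 : σ (J (σ.symm x)) - x = A (J (σ.symm x) - σ.symm x) := by
      rw [← hσsub, σ.apply_symm_apply]
    rw [h2, hAn]
    exact (mul_le_mul_of_nonneg_left h1 hμ.le).trans hμη.le
  -- the identity `T (σ (f x)) = x` near `E`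
  have hTE : ∀ x ∈ closedBall c t, T (σ (f x)) = x := by
    intro x hx
    rw [hTa, σ.symm_apply_apply, hJ, H.J_val N hx]
    exact hs₀E.self_of_nhdsSet x hx
  have hTn : ∀ x ∈ closedBall c t, ∀ᶠ y in 𝓝 (σ (f x)), f (T y) = σ.symm y := by
    intro x hx
    have h1 : ∀ᶠ z in 𝓝 x, s₀ (σ (f (s' z))) = z := hs₀E.filter_mono (nhds_le_nhdsSet hx)
    have h2 : Tendsto f.symm (𝓝 (f x)) (𝓝 x) := by
      have := f.symm.continuous.tendsto (f x)
      rwa [f.symm_apply_apply] at this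
    have h3 : Tendsto σ.symm (𝓝 (σ (f x))) (𝓝 (f x)) := by
      have := σ.symm.continuous.tendsto (σ (f x))
      rwa [σ.symm_apply_apply] at this
    filter_upwards [h3.eventually (H.J_near N hx), h3.eventually (h2.eventually h1)] with y h4 h5
    rw [hTa, hJ, h4, cj_apply, h5, f.apply_symm_apply]
  refine ⟨T, ?_, ?_, ?_⟩
  · intro x
    refine ⟨σ (J (σ.symm x)), hJ' x, ?_⟩
    by_cases h1 : σ (J (σ.symm x)) ∈ ball c ρ
    · exact Or.inr ⟨h1, hs₀.mem_iff.2 h1⟩
    · exact Or.inl (hs₀.id_off h1)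
  · intro x hx
    by_cases h1 : J (σ.symm x) = σ.symm x
    · left
      by_contra h2
      apply hx
      rw [hTa, h1, σ.apply_symm_apply, hs₀.id_off h2]
    · right
      obtain ⟨j, a, ha, h2⟩ := H.J_supp N _ h1
      refine ⟨μ * (j * ‖P‖), by positivity, ?_⟩
      have h3 : x = σ (f a + (j : ℝ) • P) := by rw [← h2, σ.apply_symm_apply]
      have h4 : x - (c + (μ * (j * ‖P‖)) • v) = A (f a - f x₁) := by
        have h5 : A ((j : ℝ) • P) = (μ * (j * ‖P‖)) • v := by
          rw [hA, map_smul, hRP, smul_smul, smul_smul, mul_assoc]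
        have h6 : f a + (j : ℝ) • P - f x₁ = (f a - f x₁) + (j : ℝ) • P := by abel
        rw [h3, hσa, ← h5, h6, map_add]
        abel
      rw [h4, hAn]
      exact lt_of_le_of_lt (mul_le_mul_of_nonneg_left (hΔ a ha x₁ hx₁B) hμ.le) hμΔ
  · intro x hxL hx
    by_cases h1 : f.symm (σ.symm x) ∈ closedBall c t
    · have h2 := hTn _ h1
      rw [f.apply_symm_apply, σ.apply_symm_apply] at h2
      exact (aff_symm_LD A (f x₁) c x).congr h2
    · have h2 : LD J (σ.symm x) := by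
        apply H.J_LD N _ h1
        intro a ha h3
        have haB : a ∈ ball c ρ := H.s'_in.mem_iff.1 (H.E_sub ha)
        have h4 : x - c = A (f a - f x₁) + (μ * (N * ‖P‖)) • v := by
          have h5 : A ((N : ℝ) • P) = (μ * (N * ‖P‖)) • v := by
            rw [hA, map_smul, hRP, smul_smul, smul_smul, mul_assoc]
          have h6 : x = σ (f a + (N : ℝ) • P) := by rw [← h3, σ.apply_symm_apply]
          have h7 : f a + (N : ℝ) • P - f x₁ = (f a - f x₁) + (N : ℝ) • P := by abel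
          rw [h6, hσa, ← h5, h7, map_add]
          abel
        have h5 : ‖(μ * (N * ‖P‖)) • v‖ ≤ ‖x - c‖ + ‖A (f a - f x₁)‖ := by
          have h6 : (μ * (N * ‖P‖)) • v = (x - c) - A (f a - f x₁) := by rw [h4]; abel
          rw [h6]
          exact norm_sub_le _ _
        rw [norm_smul, hv, mul_one, hAn, Real.norm_of_nonneg (by positivity)] at h5
        have h7 := mul_le_mul_of_nonneg_left (hΔ a haB x₁ hx₁B) hμ.le
        nlinarith
      have h3 : LD T x := by
        have h4 : LD σ (J (σ.symm x)) := aff_LD A (f x₁) c _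
        have h5 : LD σ.symm x := aff_symm_LD A (f x₁) c x
        have h6 : LD (fun y => J (σ.symm y)) x := h2.comp' h5
        have h7 : LD (fun y => σ (J (σ.symm y))) x := LD.comp' (g := fun y => J (σ.symm y)) h4 h6
        exact LD.comp' (g := fun y => σ (J (σ.symm y))) (LD.of_isDiffeo hs₀.1 _) h7
      have h4 : T x ∉ closedBall c t := by
        intro h5
        have h6 := T.injective (hTE _ h5)
        apply h1
        rw [← h6, σ.symm_apply_apply, f.symm_apply_apply]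
        exact h5
      rcases hx with h5 | h5
      · exact absurd h5 h4
      · exact h5.comp' h3

end Pool.Agent.TopCells
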