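import Pool.Agent.Lib.MP_4f753b_an.C2

/-! Row D1: the step, applied to finitely many balls one after the other. -/

open Set Metric Filter Module
open scoped ContDiff Topology RealInnerProductSpace

namespace Pool.Agent.TopCells

variable {V : Type} [NormedAddCommGroup V] [InnerProductSpace ℝ V] [FiniteDimensional ℝ V]

omit [FiniteDimensional ℝ V] in
theorem dist_ge_of_inner {w c c' : V} (hw : ‖w‖ = 1) {om : ℝ} (h : om ≤ |⟪w, c - c'⟫|) :
    om ≤ dist c c' := by
  have h1 := abs_real_inner_le_norm w (c - c')
  rw [hw, one_mul] at h1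
  rw [dist_eq_norm]
  exact h.trans h1

theorem exists_multi (I : Finset V) {w v : V} (hw : ‖w‖ = 1) (hv : ‖v‖ = 1) (hwv : ⟪w, v⟫ = 0)
    {om t : ℝ} (ho : ∀ c ∈ I, ∀ c' ∈ I, c ≠ c' → om ≤ |⟪w, c - c'⟫|) (ht : 0 < t)
    (hto : 8 * t ≤ om) {K : Set V} (hKb : Bornology.IsBounded K)
    (hKI : ∀ c ∈ I, ball c (2 * t) ⊆ K) {η₀ : ℝ} (hη₀t : η₀ ≤ t) (f₀ : V ≃ₜ V)
    (hf₀ : ∀ y ∈ thickening η₀ K, (∀ c ∈ I, y ∉ closedBall c t) → LD f₀ y)
    (hrank : 1 < finrank ℝ V) (J : Finset V) : J ⊆ I → ∀ a, 0 < a → a < η₀ → ∃ T : V ≃ₜ V,
      (∀ x, ‖T x - x‖ ≤ a ∨ ∃ c ∈ I, dist x c < 2 * t + a ∧ dist (T x) c < 2 * t + a) ∧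
      ∀ x ∈ thickening (η₀ - a) K, (∀ c ∈ I, c ∉ J → x ∉ closedBall c t) →
        LD (fun y => f₀ (T y)) x := by
  classical
  induction J using Finset.induction_on with
  | empty =>
    intro _ a ha haη
    refine ⟨Homeomorph.refl V, fun x => Or.inl ?_, fun x hx hxI => ?_⟩
    · have : (Homeomorph.refl V) x - x = 0 := sub_self x
      rw [this, norm_zero]
      exact ha.le
    · exact hf₀ x (thickening_mono (by linarith) K hx) fun c hc => hxI c hc (Finset.notMem_empty c)
  | insert c J hcJ ih =>
    intro hJI a ha haη
    have hcI : c ∈ I := hJI (Finset.mem_insert_self c J)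
    have hJI' : J ⊆ I := fun x hx => hJI (Finset.mem_insert_of_mem hx)
    obtain ⟨T₁, hT₁, hT₁'⟩ := ih hJI' (a / 2) (by linarith) (by linarith)
    obtain ⟨L, hL⟩ : ∃ L : ℝ, ∀ x ∈ thickening η₀ K, ‖x - c‖ < L := by
      obtain ⟨L, hL⟩ := (hKb.thickening (δ := η₀)).subset_ball c
      exact ⟨L, fun x hx => by
        have := hL hx
        rwa [mem_ball, dist_eq_norm] at this⟩
    have hf : ∀ x ∈ ball c (2 * t), x ∉ closedBall c t → LD (T₁.trans f₀) x := by
      intro x hx hxc
      refine hT₁' x (self_subset_thickening (by linarith) K (hKI c hcI hx)) fun c' hc' _ => ?_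
      by_cases h : c = c'
      · rwa [← h]
      · intro h1
        have h2 := (dist_ge_of_inner hw (ho c hcI c' hc' h))
        have h3 := dist_triangle_left c c' x
        rw [mem_ball] at hx
        rw [mem_closedBall] at h1
        linarith
    obtain ⟨T₂, ha₂, hb₂, hc₂⟩ := exists_step (T₁.trans f₀) hv ht.le (by linarith : t < 2 * t)
      hf hrank (η := a / 2) (by linarith) L
    refine ⟨T₂.trans T₁, ?_, ?_⟩
    · intro x
      rw [Homeomorph.trans_apply]
      obtain ⟨x', hx', h1⟩ := ha₂ x
      rcases h1 with h1 | ⟨h1, h2⟩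
      · rcases hT₁ (T₂ x) with h3 | ⟨c', hc', h3, h4⟩
        · left
          have h4 : T₁ (T₂ x) - x = (T₁ (T₂ x) - T₂ x) + (x' - x) := by rw [h1]; abel
          rw [h4]
          exact (norm_add_le _ _).trans (by linarith)
        · right
          refine ⟨c', hc', ?_, by linarith⟩
          have h5 := dist_triangle_left x c' x'
          rw [h1] at h3
          rw [← dist_eq_norm] at hx'
          linarith
      · rw [mem_ball] at h1 h2
        rcases hT₁ (T₂ x) with h3 | ⟨c', hc', h3, h4⟩
        · right
          refine ⟨c, hcI, ?_, ?_⟩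
          · have h5 := dist_triangle_left x c x'
            rw [← dist_eq_norm] at hx'
            linarith
          · have h5 := dist_triangle (T₁ (T₂ x)) (T₂ x) c
            rw [← dist_eq_norm] at h3
            linarith
        · right
          by_cases h : c = c'
          · rw [← h] at h3 h4
            refine ⟨c, hcI, ?_, by linarith⟩
            have h5 := dist_triangle_left x c x'
            rw [← dist_eq_norm] at hx'
            linarith
          · have h5 := (dist_ge_of_inner hw (ho c hcI c' hc' h))
            have h6 := dist_triangle_left c c' (T₂ x)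
            linarith
    · intro x hx hxI
      refine hc₂ x (hL x (thickening_mono (by linarith) K hx)) ?_
      by_cases h : T₂ x ∈ closedBall c t
      · exact Or.inl h
      right
      refine hT₁' (T₂ x) ?_ ?_
      · obtain ⟨x', hx', h1⟩ := ha₂ x
        rcases h1 with h1 | ⟨_, h1⟩
        · rw [mem_thickening_iff] at hx ⊢
          obtain ⟨z, hz, hz1⟩ := hx
          refine ⟨z, hz, ?_⟩
          rw [h1]
          have h5 := dist_triangle x' x z
          rw [← dist_eq_norm] at hx'
          linarith
        · exact self_subset_thickening (by linarith) K (hKI c hcI h1)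
      · intro c' hc' hc'J h1
        by_cases hcc : c' = c
        · rw [hcc] at h1
          exact h h1
        · have h2 : T₂ (T₂ x) = T₂ x := by
            by_contra h3
            have h4 := (ho c' hc' c hcI hcc)
            rw [mem_closedBall] at h1
            rcases hb₂ _ h3 with h5 | ⟨s, _, h5⟩
            · rw [mem_ball] at h5
              have h6 := dist_ge_of_inner hw h4
              have h7 := dist_triangle_left c' c (T₂ x)
              linarith
            · have h6 := abs_real_inner_le_norm w (T₂ x - (c + s • v))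
              have h7 := abs_real_inner_le_norm w (T₂ x - c')
              rw [hw, one_mul] at h6 h7
              rw [dist_eq_norm] at h1
              have h8 : ⟪w, c' - c⟫ = ⟪w, T₂ x - (c + s • v)⟫ - ⟪w, T₂ x - c'⟫ := by
                simp only [inner_sub_right, inner_add_right, inner_smul_right, hwv]
                ring
              rw [h8] at h4
              have h9 := abs_sub (⟪w, T₂ x - (c + s • v)⟫ : ℝ) ⟪w, T₂ x - c'⟫
              linarith
          have h3 := T₂.injective h2
          rw [h3] at h1
          refine hxI c' hc' ?_ h1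
          rw [Finset.mem_insert, not_or]
          exact ⟨hcc, hc'J⟩

end Pool.Agent.TopCells
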