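import Pool.Agent.Lib.MP_4f753b_an.D1

/-! Row D2: generic directions, and products of diffeomorphisms with disjoint supports. -/

open Set Metric Filter Module
open scoped ContDiff Topology RealInnerProductSpace

namespace Pool.Agent.TopCells

variable {V : Type} [NormedAddCommGroup V] [InnerProductSpace ℝ V] [FiniteDimensional ℝ V]

theorem exists_generic (I : Finset V) : ∃ w : V, ∀ c ∈ I, ∀ c' ∈ I, c ≠ c' → ⟪w, c - c'⟫ ≠ 0 := by
  classical
  obtain ⟨φ, hφ⟩ := Module.exists_dual_forall_apply_ne_zero (K := ℝ) (M := V)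
    (fun p : {p : I × I // (p.1 : V) ≠ p.2} => ((p.1.1 : V) - p.1.2))
    (fun p => sub_ne_zero.2 p.2)
  refine ⟨(InnerProductSpace.toDual ℝ V).symm (LinearMap.toContinuousLinearMap φ), ?_⟩
  intro c hc c' hc' h
  rw [InnerProductSpace.toDual_symm_apply]
  exact hφ ⟨(⟨c, hc⟩, ⟨c', hc'⟩), h⟩

theorem exists_height (I : Finset V) (hrank : 1 < finrank ℝ V) : ∃ w v : V, ‖w‖ = 1 ∧ ‖v‖ = 1 ∧
    ⟪w, v⟫ = 0 ∧ ∃ om : ℝ, 0 < om ∧ ∀ c ∈ I, ∀ c' ∈ I, c ≠ c' → om ≤ |⟪w, c - c'⟫| := by
  classical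
  obtain ⟨e, he, _⟩ := exists_perp hrank (0 : V)
  have he0 : e ≠ 0 := by
    intro h
    rw [h, norm_zero] at he
    exact zero_ne_one he
  obtain ⟨w, hw⟩ := exists_generic (insert 0 (insert e I))
  have hw0 : w ≠ 0 := by
    intro h
    have := hw e (by simp) 0 (by simp) he0
    rw [h, inner_zero_left] at this
    exact this rfl
  set w' : V := (‖w‖⁻¹ : ℝ) • w with hw'
  have h1 : ‖w'‖ = 1 := by
    rw [hw', norm_smul, norm_inv, norm_norm, inv_mul_cancel₀ (norm_ne_zero_iff.2 hw0)]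
  obtain ⟨v, hv, hwv⟩ := exists_perp hrank w'
  refine ⟨w', v, h1, hv, hwv, ?_⟩
  have h2 : ∀ᶠ om in 𝓝[>] (0 : ℝ), ∀ c ∈ I, ∀ c' ∈ I, c ≠ c' → om ≤ |⟪w', c - c'⟫| := by
    rw [eventually_all_finset]
    intro c hc
    rw [eventually_all_finset]
    intro c' hc'
    by_cases h : c = c'
    · exact Eventually.of_forall fun _ h' => absurd h h'
    · have h3 : 0 < |(⟪w', c - c'⟫ : ℝ)| := by
        rw [abs_pos, hw', inner_smul_left]
        refine mul_ne_zero ?_ (hw c (by simp [hc]) c' (by simp [hc']) h)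
        simpa using hw0
      filter_upwards [Ioc_mem_nhdsGT h3] with x hx using fun _ => hx.2
  obtain ⟨om, h3, h4⟩ := (h2.and self_mem_nhdsWithin).exists
  exact ⟨om, h4, h3⟩

omit [FiniteDimensional ℝ V] in
theorem exists_combine {α : Type} (s : Finset α) (C : α → Set V) (lam : α → (V ≃ₜ V)) :
    (∀ i ∈ s, ∀ j ∈ s, i ≠ j → Disjoint (C i) (C j)) → (∀ i ∈ s, DiffIn (C i) (lam i)) →
    ∃ Λ : V ≃ₜ V, IsDiffeo Λ ∧ (∀ i ∈ s, ∀ x ∈ C i, Λ x = lam i x) ∧
      ∀ x, (∀ i ∈ s, x ∉ C i) → Λ x = x := by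
  classical
  induction s using Finset.induction_on with
  | empty =>
    intro _ _
    exact ⟨Homeomorph.refl V, IsDiffeo.refl, fun i hi => absurd hi (Finset.notMem_empty i),
      fun x _ => rfl⟩
  | insert i s his ih =>
    intro hC hl
    obtain ⟨Λ, h1, h2, h3⟩ := ih
      (fun j hj k hk => hC j (Finset.mem_insert_of_mem hj) k (Finset.mem_insert_of_mem hk))
      (fun j hj => hl j (Finset.mem_insert_of_mem hj))
    have hi := hl i (Finset.mem_insert_self i s)
    refine ⟨Λ.trans (lam i), h1.trans hi.1, ?_, ?_⟩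
    · intro j hj x hx
      rw [Homeomorph.trans_apply]
      by_cases hji : j = i
      · rw [hji] at hx ⊢
        rw [h3 x]
        intro k hk hxk
        have hki : k ≠ i := fun h => his (h ▸ hk)
        exact (Set.disjoint_left.1 (hC k (Finset.mem_insert_of_mem hk) i
          (Finset.mem_insert_self i s) hki)) hxk hx
      · have hj' : j ∈ s := (Finset.mem_insert.1 hj).resolve_left hji
        rw [h2 j hj' x hx]
        apply hi.id_off
        exact (Set.disjoint_left.1 (hC j hj i (Finset.mem_insert_self i s) hji))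
          ((hl j hj).mem_iff.2 hx)
    · intro x hx
      rw [Homeomorph.trans_apply, h3 x fun j hj => hx j (Finset.mem_insert_of_mem hj)]
      exact hi.id_off (hx i (Finset.mem_insert_self i s))

end Pool.Agent.TopCells
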