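import Pool.Agent.Lib.MP_4f753b_an.D2

/-! Row D3: a homeomorphism which is a local diffeomorphism off finitely many small disjoint
compact convex sets is smoothed by a small change of the variable. -/

open Set Metric Filter Module
open scoped ContDiff Topology RealInnerProductSpace

namespace Pool.Agent.TopCells

variable {V : Type} [NormedAddCommGroup V] [InnerProductSpace ℝ V] [FiniteDimensional ℝ V]

/-- A compact set which can be squeezed, inside each of its neighbourhoods, into each ball around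
one of its points. -/
def Cellular (Q : Set V) : Prop :=
  IsCompact Q ∧ ∃ c ∈ Q, ∀ U : Set V, IsOpen U → Q ⊆ U → ∀ t : ℝ, 0 < t →
    ∃ e : V ≃ₜ V, DiffIn U e ∧ ∀ x ∈ Q, e x ∈ closedBall c t

theorem cellular_of_convex {Q : Set V} (hQ : IsCompact Q) (hQc : Convex ℝ Q) (hne : Q.Nonempty) :
    Cellular Q := by
  obtain ⟨c, hc⟩ := hne
  refine ⟨hQ, c, hc, fun U hU hQU t ht => ?_⟩
  have hdn : (0 : ℝ) ≤ diam Q := diam_nonneg
  obtain ⟨e, κ, he, hκ, hκt, hex⟩ := exists_squeeze hU hQ hQc hQU hc (κ₀ := t / (diam Q + 1))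
    (by positivity)
  refine ⟨e, he, fun x hx => ?_⟩
  rw [hex.self_of_nhdsSet x hx, mem_closedBall, dist_eq_norm, add_sub_cancel_left, norm_smul,
    Real.norm_of_nonneg hκ.le, ← dist_eq_norm]
  have h4 := dist_le_diam_of_mem hQ.isBounded hx hc
  rw [lt_div_iff₀ (by positivity)] at hκt
  nlinarith

theorem exists_clean (h : V ≃ₜ V) {𝒬 : Set (Set V)} (hfin : 𝒬.Finite)
    (hdisj : 𝒬.PairwiseDisjoint id) {d : ℝ} (hd0 : 0 < d) (hd : d ≤ 1 / 2)
    (hQ : ∀ Q ∈ 𝒬, Cellular Q ∧ diam Q < d) {R : ℝ}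
    (hh : ∀ x ∈ closedBall (0 : V) (R + 1), x ∉ ⋃₀ 𝒬 → LD h x) (hrank : 1 < finrank ℝ V) :
    ∃ Φ : V ≃ₜ V, (∀ x, ‖Φ x - x‖ ≤ 2 * d) ∧
      ∀ x ∈ closedBall (0 : V) R, LD (fun y => h (Φ y)) x := by
  classical
  set S : Finset (Set V) := (hfin.subset
    (sep_subset 𝒬 (fun Q => (Q ∩ closedBall (0 : V) R).Nonempty))).toFinset with hS
  have hmS : ∀ Q, Q ∈ S ↔ Q ∈ 𝒬 ∧ (Q ∩ closedBall (0 : V) R).Nonempty := by
    intro Q
    rw [hS, Set.Finite.mem_toFinset]
    exact Iff.rfl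
  have hne : ∀ Q ∈ S, ∃ c ∈ Q, ∀ U : Set V, IsOpen U → Q ⊆ U → ∀ t : ℝ, 0 < t →
      ∃ e : V ≃ₜ V, DiffIn U e ∧ ∀ x ∈ Q, e x ∈ closedBall c t := fun Q hQS =>
    (hQ Q ((hmS Q).1 hQS).1).1.2
  choose! c hc hcU using hne
  -- the thickenings
  have hθ : ∀ᶠ θ in 𝓝[>] (0 : ℝ), ∀ Q ∈ S,
      Disjoint (thickening θ Q) (thickening θ (⋃₀ (𝒬 \ {Q}))) ∧ diam Q + 2 * θ < d ∧ θ < 1 / 2 := by
    rw [eventually_all_finset]
    intro Q hQS
    obtain ⟨⟨h1, _⟩, h3⟩ := hQ Q ((hmS Q).1 hQS).1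
    have h4 : IsClosed (⋃₀ (𝒬 \ {Q})) := by
      rw [sUnion_eq_biUnion]
      exact (hfin.subset sdiff_subset).isClosed_biUnion fun Q' hQ' => (hQ Q' hQ'.1).1.1.isClosed
    have h5 : Disjoint Q (⋃₀ (𝒬 \ {Q})) := by
      rw [Set.disjoint_sUnion_right]
      intro Q' hQ'
      exact hdisj ((hmS Q).1 hQS).1 hQ'.1 (fun h => hQ'.2 h.symm)
    obtain ⟨θ₀, h6, h7⟩ := h5.exists_thickenings h1 h4
    have h8 : 0 < min θ₀ (min ((d - diam Q) / 2) (1 / 2)) :=
      lt_min h6 (lt_min (by linarith) (by norm_num))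
    filter_upwards [Ioo_mem_nhdsGT h8] with θ hθ
    have h9 := hθ.2
    rw [lt_min_iff, lt_min_iff] at h9
    refine ⟨h7.mono (thickening_mono h9.1.le _) (thickening_mono h9.1.le _), ?_, h9.2.2⟩
    linarith [h9.2.1]
  obtain ⟨θ, hθ, hθ0⟩ := (hθ.and self_mem_nhdsWithin).exists
  replace hθ0 : 0 < θ := hθ0
  have hCdisj : ∀ Q ∈ S, ∀ Q' ∈ 𝒬, Q' ≠ Q → Disjoint (thickening θ Q) (thickening θ Q') := by
    intro Q hQS Q' hQ' hne'
    have h1 : Q' ∈ 𝒬 \ {Q} := ⟨hQ', hne'⟩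
    exact (hθ Q hQS).1.mono_right (thickening_subset_of_subset θ (subset_sUnion_of_mem h1))
  have hCd : ∀ Q ∈ S, ∀ x ∈ thickening θ Q, ∀ y ∈ thickening θ Q, ‖x - y‖ ≤ d := by
    intro Q hQS x hx y hy
    rw [mem_thickening_iff] at hx hy
    obtain ⟨x', hx', hxx'⟩ := hx
    obtain ⟨y', hy', hyy'⟩ := hy
    have h1 := dist_le_diam_of_mem (hQ Q ((hmS Q).1 hQS).1).1.1.isBounded hx' hy'
    have h2 := (hθ Q hQS).2.1
    rw [← dist_eq_norm]
    have h3 := dist_triangle x x' y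
    have h4 := dist_triangle x' y' y
    rw [dist_comm y y'] at hyy'
    linarith
  have hCR : ∀ Q ∈ S, ∀ x ∈ thickening θ Q, x ∈ closedBall (0 : V) (R + 1) := by
    intro Q hQS x hx
    obtain ⟨z, hz, hzR⟩ := ((hmS Q).1 hQS).2
    have h1 := hCd Q hQS x hx z (self_subset_thickening hθ0 Q hz)
    rw [mem_closedBall] at hzR ⊢
    rw [← dist_eq_norm] at h1
    have h2 := dist_triangle x z 0
    linarith
  -- the centres
  set I : Finset V := S.image c with hI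
  obtain ⟨w, v, hw, hv, hwv, om, hom, ho⟩ := exists_height I hrank
  obtain ⟨t, ht, hto, htθ, htd⟩ : ∃ t : ℝ, 0 < t ∧ 8 * t ≤ om ∧ 2 * t < θ ∧ 5 * t ≤ d := by
    refine ⟨min (om / 8) (min (θ / 3) (d / 5)), ?_, ?_, ?_, ?_⟩
    · exact lt_min (by linarith) (lt_min (by linarith) (by linarith))
    · have := min_le_left (om / 8) (min (θ / 3) (d / 5))
      linarith
    · have := (min_le_right (om / 8) (min (θ / 3) (d / 5))).trans (min_le_left _ _)
      linarith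
    · have := (min_le_right (om / 8) (min (θ / 3) (d / 5))).trans (min_le_right _ _)
      linarith
  have hcb : ∀ Q ∈ S, closedBall (c Q) (2 * t) ⊆ thickening θ Q := by
    intro Q hQS x hx
    rw [mem_thickening_iff]
    exact ⟨c Q, hc Q hQS, lt_of_le_of_lt (mem_closedBall.1 hx) htθ⟩
  -- the squeezing maps
  have hlam : ∀ Q ∈ S, ∃ e : V ≃ₜ V, DiffIn (thickening θ Q) e ∧ ∀ x ∈ Q, e x ∈ closedBall (c Q) t :=
    fun Q hQS => hcU Q hQS _ isOpen_thickening (self_subset_thickening hθ0 Q) t ht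
  choose! lam hlamC hlamQ using hlam
  obtain ⟨Λ, hΛ, hΛ1, hΛ2⟩ := exists_combine S (fun Q => thickening θ Q) lam
    (fun Q hQS Q' hQS' hne' => hCdisj Q hQS Q' ((hmS Q').1 hQS').1 (Ne.symm hne')) hlamC
  set f₀ : V ≃ₜ V := Λ.symm.trans h with hf₀
  have hf₀a : ∀ y, f₀ y = h (Λ.symm y) := fun y => rfl
  have hcomp : ∀ y, LD h (Λ.symm y) → LD f₀ y := fun y hy =>
    LD.comp' (g := fun y => Λ.symm y) hy (LD.of_isDiffeo hΛ.symm y)
  have hΛd : ∀ y, ‖Λ.symm y - y‖ ≤ d := by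
    intro y
    have h1 : Λ (Λ.symm y) = y := Λ.apply_symm_apply y
    by_cases h2 : ∃ Q ∈ S, Λ.symm y ∈ thickening θ Q
    · obtain ⟨Q, hQS, h3⟩ := h2
      have h4 := hΛ1 Q hQS _ h3
      rw [h1] at h4
      have h5 : y ∈ thickening θ Q := by
        rw [h4]
        exact (hlamC Q hQS).mem_iff.2 h3
      exact hCd Q hQS _ h3 _ h5
    · push Not at h2
      have h3 := hΛ2 _ h2
      rw [h1] at h3
      rw [← h3, sub_self, norm_zero]
      exact hd0.le
  -- the good points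
  have key1 : ∀ Q ∈ S, ∀ y ∈ thickening θ Q, y ∉ closedBall (c Q) t → LD f₀ y := by
    intro Q hQS y hy hyc
    apply hcomp
    set x := (lam Q).symm y with hx
    have hxC : x ∈ thickening θ Q := (hlamC Q hQS).symm.mem_iff.2 hy
    have hxy : lam Q x = y := (lam Q).apply_symm_apply y
    have h1 : Λ x = y := by rw [hΛ1 Q hQS x hxC, hxy]
    have h2 : Λ.symm y = x := by rw [← h1, Λ.symm_apply_apply]
    rw [h2]
    refine hh x (hCR Q hQS x hxC) ?_
    rintro ⟨Q', hQ', hxQ'⟩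
    by_cases h3 : Q' = Q
    · rw [h3] at hxQ'
      have := hlamQ Q hQS x hxQ'
      rw [hxy] at this
      exact hyc this
    · exact (Set.disjoint_left.1 (hCdisj Q hQS Q' hQ' h3)) hxC (self_subset_thickening hθ0 Q' hxQ')
  have key2 : ∀ y ∈ closedBall (0 : V) R, (∀ Q ∈ S, y ∉ thickening θ Q) → LD f₀ y := by
    intro y hy hyS
    apply hcomp
    have h1 := hΛ2 y hyS
    have h2 : Λ.symm y = y := by rw [Λ.symm_apply_eq, h1]
    rw [h2]
    refine hh y (closedBall_subset_closedBall (by linarith) hy) ?_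
    rintro ⟨Q, hQ', hyQ⟩
    exact hyS Q ((hmS Q).2 ⟨hQ', ⟨y, hyQ, hy⟩⟩) (self_subset_thickening hθ0 Q hyQ)
  set K : Set V := closedBall (0 : V) R ∪ ⋃ Q ∈ S, closedBall (c Q) (2 * t) with hK
  have hKc : IsCompact K := (isCompact_closedBall 0 R).union
    (S.isCompact_biUnion fun Q _ => isCompact_closedBall (c Q) (2 * t))
  have hGo : IsOpen ({y | LD f₀ y} ∪ ⋃ Q ∈ S, ball (c Q) (2 * t)) :=
    (isOpen_LD f₀).union (isOpen_biUnion fun Q _ => isOpen_ball)
  have hcase : ∀ Q ∈ S, ∀ y ∈ thickening θ Q, y ∈ {y | LD f₀ y} ∪ ⋃ Q ∈ S, ball (c Q) (2 * t) := by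
    intro Q hQS y hy
    by_cases h1 : y ∈ closedBall (c Q) t
    · right
      rw [mem_iUnion₂]
      exact ⟨Q, hQS, closedBall_subset_ball (by linarith) h1⟩
    · left
      exact key1 Q hQS y hy h1
  have hKG : K ⊆ {y | LD f₀ y} ∪ ⋃ Q ∈ S, ball (c Q) (2 * t) := by
    rintro y (hy | hy)
    · by_cases h1 : ∃ Q ∈ S, y ∈ thickening θ Q
      · obtain ⟨Q, hQS, h2⟩ := h1
        exact hcase Q hQS y h2
      · push Not at h1
        exact Or.inl (key2 y hy h1)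
    · rw [mem_iUnion₂] at hy
      obtain ⟨Q, hQS, h2⟩ := hy
      exact hcase Q hQS y (hcb Q hQS h2)
  obtain ⟨η₁, hη₁, hη₁G⟩ := hKc.exists_thickening_subset_open hGo hKG
  have hη₀ : 0 < min η₁ t := lt_min hη₁ ht
  have hf₀' : ∀ y ∈ thickening (min η₁ t) K, (∀ c' ∈ I, y ∉ closedBall c' t) → LD f₀ y := by
    intro y hy hyI
    rcases hη₁G (thickening_mono (min_le_left _ _) K hy) with h1 | h1
    · exact h1
    · rw [mem_iUnion₂] at h1
      obtain ⟨Q, hQS, h2⟩ := h1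
      exact key1 Q hQS y (hcb Q hQS (ball_subset_closedBall h2))
        (hyI (c Q) (Finset.mem_image_of_mem c hQS))
  have hKI : ∀ c' ∈ I, ball c' (2 * t) ⊆ K := by
    intro c' hc' y hy
    rw [hI, Finset.mem_image] at hc'
    obtain ⟨Q, hQS, rfl⟩ := hc'
    right
    rw [mem_iUnion₂]
    exact ⟨Q, hQS, ball_subset_closedBall hy⟩
  obtain ⟨T, hT1, hT2⟩ := exists_multi I hw hv hwv ho ht hto hKc.isBounded hKI (min_le_right η₁ t)
    f₀ hf₀' hrank I (Finset.Subset.refl I) (min η₁ t / 2) (by linarith) (by linarith)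
  refine ⟨T.trans Λ.symm, ?_, ?_⟩
  · intro x
    have h1 : ‖T x - x‖ ≤ d := by
      have h5 := min_le_right η₁ t
      rcases hT1 x with h2 | ⟨c', _, h3, h4⟩
      · linarith
      · rw [← dist_eq_norm]
        have h6 := dist_triangle_right (T x) x c'
        linarith
    have h2 : (T.trans Λ.symm) x - x = (Λ.symm (T x) - T x) + (T x - x) := by
      rw [Homeomorph.trans_apply]
      abel
    rw [h2]
    exact (norm_add_le _ _).trans (by linarith [hΛd (T x)])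
  · intro x hx
    refine hT2 x (self_subset_thickening (by linarith) K (Or.inl hx)) ?_
    intro c' hc' hc''
    exact absurd hc' hc''

end Pool.Agent.TopCells
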