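import Pool.Agent.Lib.MP_4f753b_an.D3

/-! Row D4: the approximation theorem. -/

open Set Metric Filter Module
open scoped ContDiff Topology RealInnerProductSpace

namespace Pool.Agent.TopCells

variable {V : Type} [NormedAddCommGroup V] [InnerProductSpace ℝ V] [FiniteDimensional ℝ V]

/-- `f` is the limit of diffeomorphisms, uniformly on compact sets. -/
def Approx (f : V ≃ₜ V) : Prop :=
  ∀ R : ℝ, 0 < R → ∀ ε : ℝ, 0 < ε → ∃ g : V ≃ₜ V, IsDiffeo g ∧
    ∀ x ∈ closedBall (0 : V) R, dist (g x) (f x) < ε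

theorem approx_of_pieces (f : V ≃ₜ V) (hrank : 1 < finrank ℝ V)
    (H : ∀ R : ℝ, 0 < R → ∀ d : ℝ, 0 < d → ∃ (h : V ≃ₜ V) (𝒬 : Set (Set V)), 𝒬.Finite ∧
      𝒬.PairwiseDisjoint id ∧ (∀ Q ∈ 𝒬, Cellular Q ∧ diam Q < d) ∧
      ∀ x ∈ closedBall (0 : V) R, dist (h x) (f x) < d ∧ (x ∉ ⋃₀ 𝒬 → LD h x)) : Approx f := by
  intro R hR ε hε
  have huc : UniformContinuousOn f (closedBall (0 : V) (R + 2)) :=
    (isCompact_closedBall 0 (R + 2)).uniformContinuousOn_of_continuous f.continuous.continuousOn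
  obtain ⟨δ, hδ, hfδ⟩ := Metric.uniformContinuousOn_iff.1 huc (ε / 2) (by linarith)
  obtain ⟨d, hd, hdδ, hd1, hdε⟩ : ∃ d : ℝ, 0 < d ∧ 2 * d < δ ∧ d ≤ 1 / 2 ∧ d ≤ ε / 2 := by
    refine ⟨min (δ / 4) (min (1 / 2) (ε / 2)), ?_, ?_, ?_, ?_⟩
    · exact lt_min (by linarith) (lt_min (by norm_num) (by linarith))
    · have := min_le_left (δ / 4) (min (1 / 2) (ε / 2))
      linarith
    · exact (min_le_right _ _).trans (min_le_left _ _)
    · exact (min_le_right _ _).trans (min_le_right _ _)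
  obtain ⟨h, 𝒬, h1, h2, h3, h4⟩ := H (R + 1 + 1) (by linarith) d hd
  obtain ⟨Φ, hΦ1, hΦ2⟩ := exists_clean h h1 h2 hd hd1 h3 (R := R + 1) (fun x hx => (h4 x hx).2) hrank
  obtain ⟨g, hg, hgF⟩ := exists_diffeo_eq (F := fun x => h (Φ x)) (R := R) (R' := R + 1) hR.le
    (by linarith) (fun x _ y _ hxy => Φ.injective (h.injective hxy))
    (fun x hx => hΦ2 x (ball_subset_closedBall hx))
  refine ⟨g, hg, fun x hx => ?_⟩
  rw [hgF x hx]
  have h5 := hΦ1 x
  rw [← dist_eq_norm] at h5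
  have hx' := mem_closedBall.1 hx
  have h6 : Φ x ∈ closedBall (0 : V) (R + 2) := by
    rw [mem_closedBall]
    have := dist_triangle (Φ x) x 0
    linarith
  have h7 : Φ x ∈ closedBall (0 : V) (R + 1 + 1) := by
    rw [mem_closedBall] at h6 ⊢
    linarith
  have h8 := (h4 _ h7).1
  have h9 := hfδ _ h6 x (closedBall_subset_closedBall (by linarith) hx) (by linarith)
  have h10 := dist_triangle (h (Φ x)) (f (Φ x)) (f x)
  linarith

end Pool.Agent.TopCells
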