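import Mathlib

/-!
# Smoothing homeomorphisms of `ℝ^n` away from small convex sets: definitions
-/

open Set Metric Filter
open scoped ContDiff Topology

namespace Pool.Agent.TopCells

variable {V : Type} [NormedAddCommGroup V] [InnerProductSpace ℝ V]

/-- `f` is a local `C^∞` diffeomorphism at `x`: it is `C^∞` in a neighbourhood of `x` and its
derivative at `x` is invertible. -/
def LD (f : V → V) (x : V) : Prop :=
  (∀ᶠ y in 𝓝 x, ContDiffAt ℝ ∞ f y) ∧ ∃ A : V ≃L[ℝ] V, HasFDerivAt f (A : V →L[ℝ] V) x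

/-- `C^∞` diffeomorphisms. -/
def IsDiffeo (e : V ≃ₜ V) : Prop := ContDiff ℝ ∞ e ∧ ContDiff ℝ ∞ e.symm

/-- `C^∞` diffeomorphisms with compact support in `S`. -/
def DiffIn (S : Set V) (e : V ≃ₜ V) : Prop :=
  IsDiffeo e ∧ ∃ K : Set V, IsCompact K ∧ K ⊆ S ∧ ∀ x, x ∉ K → e x = x

/-- `J_0 = h`, `J_{N+1} = k ∘ h ∘ Θ ∘ J_N ∘ Θ⁻¹`, `Θ y = y + P`. -/
noncomputable def chainJ (h k : V ≃ₜ V) (P : V) : ℕ → (V ≃ₜ V)
  | 0 => h
  | N + 1 => (((Homeomorph.addRight (-P)).trans (chainJ h k P N)).trans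
      (Homeomorph.addRight P)).trans (h.trans k)

/-- The homeomorphism `f ∘ s ∘ f⁻¹`. -/
noncomputable def cj (f s : V ≃ₜ V) : V ≃ₜ V := f.symm.trans (s.trans f)

open scoped RealInnerProductSpace

/-- The data of the chain: `f` is a homeomorphism, a local diffeomorphism on `B` off `E`; `s`, `s'`
are diffeomorphisms with compact support in `B`; `h = f s' f⁻¹` and `k = f s f⁻¹` are the identity
off the slabs `(m - δ, m + D - δ)`, `(m + δ, m + D + δ)` of the level function `⟪u, ·⟫`, and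
`s ∘ f⁻¹ ∘ (· + P) ∘ f ∘ s'` is the identity near `E`. -/
structure IsDipole (f s s' : V ≃ₜ V) (E B : Set V) (u P : V) (m D δ γ : ℝ) : Prop where
  E_ne : E.Nonempty
  E_sub : E ⊆ B
  B_open : IsOpen B
  f_LD : ∀ x ∈ B, x ∉ E → LD f x
  s_in : DiffIn B s
  s'_in : DiffIn B s'
  γ_pos : 0 < γ
  γ_lt : γ < δ
  D_pos : 0 < D
  level_P : ⟪u, P⟫ = D
  h_id : ∀ y, ⟪u, y⟫ ≤ m - δ + γ ∨ m + D - δ - γ ≤ ⟪u, y⟫ → cj f s' y = y
  k_id : ∀ y, ⟪u, y⟫ ≤ m + δ + γ ∨ m + D + δ - γ ≤ ⟪u, y⟫ → cj f s y = y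
  E_low : ∀ x ∈ E, m + δ + γ < ⟪u, f x⟫
  E_high : ∀ x ∈ E, ⟪u, f x⟫ < m + D - δ - γ
  X_low : ∀ x ∈ E, m - δ + γ < ⟪u, f (s' x)⟫
  X_high : ∀ x ∈ E, ⟪u, f (s' x)⟫ < m + δ
  link : ∀ x ∈ E, ∀ᶠ z in 𝓝 x, s (f.symm (f (s' z) + P)) = z

end Pool.Agent.TopCells
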