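import Pool.Agent.Lib.MP_4f753b_an.D4

/-! Row E1: intervals and boxes. -/

open Set Metric Filter Module
open scoped ContDiff Topology RealInnerProductSpace

namespace Pool.Agent.TopCells

theorem exists_intervals {Z : Set ℝ} (hZ : IsCompact Z) (hZi : interior Z = ∅) {d : ℝ}
    (hd : 0 < d) : ∃ a b : ℤ → ℝ, (∀ k, a k ≤ b k ∧ b k - a k < 3 * d) ∧
      (∀ k l, k ≠ l → Disjoint (Icc (a k) (b k)) (Icc (a l) (b l))) ∧
      ∃ N : ℕ, ∀ z ∈ Z, ∃ k ∈ Finset.Icc (-(N : ℤ)) N, z ∈ Icc (a k) (b k) := by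
  -- the cutting points
  have h1 : ∀ k : ℤ, ∃ p e : ℝ, 2 * (k : ℝ) * d < p ∧ p < (2 * (k : ℝ) + 1) * d ∧ 0 < e ∧
      e ≤ d / 2 ∧ ∀ z ∈ Z, e ≤ |z - p| := by
    intro k
    have h2 : ¬ Ioo (2 * (k : ℝ) * d) ((2 * (k : ℝ) + 1) * d) ⊆ Z := by
      intro h
      have h3 := interior_maximal h isOpen_Ioo
      rw [hZi] at h3
      have h4 : (2 * (k : ℝ) * d + (2 * (k : ℝ) + 1) * d) / 2 ∈
          Ioo (2 * (k : ℝ) * d) ((2 * (k : ℝ) + 1) * d) := by
        constructor <;> nlinarith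
      exact h3 h4
    rw [Set.not_subset] at h2
    obtain ⟨p, hp, hpZ⟩ := h2
    obtain ⟨e, he, heZ⟩ := Metric.isOpen_iff.1 hZ.isClosed.isOpen_compl p hpZ
    refine ⟨p, min e (d / 2), hp.1, hp.2, lt_min he (by linarith), min_le_right _ _, ?_⟩
    intro z hz
    by_contra h3
    push Not at h3
    have h4 : z ∈ ball p e := by
      rw [mem_ball, Real.dist_eq]
      exact lt_of_lt_of_le h3 (min_le_left _ _)
    exact heZ h4 hz
  choose p e hp1 hp2 he0 hed heZ using h1
  have hmono : ∀ k l : ℤ, k < l → p k ≤ p l := by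
    intro k l hkl
    have h2 : (k : ℝ) + 1 ≤ l := by exact_mod_cast hkl
    have h3 := hp2 k
    have h4 := hp1 l
    nlinarith
  have hmono' : ∀ k l : ℤ, k ≤ l → p k ≤ p l := by
    intro k l hkl
    rcases eq_or_lt_of_le hkl with h | h
    · rw [h]
    · exact hmono k l h
  have hdis : ∀ k l : ℤ, k < l →
      Disjoint (Icc (p k + e k) (p (k + 1) - e (k + 1))) (Icc (p l + e l) (p (l + 1) - e (l + 1))) := by
    intro k l hkl
    rw [Set.disjoint_left]
    intro x hx hx'
    have h2 := hmono' (k + 1) l hkl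
    have h3 := hx.2
    have h4 := hx'.1
    linarith [he0 (k + 1), he0 l]
  refine ⟨fun k => p k + e k, fun k => p (k + 1) - e (k + 1), fun k => ⟨?_, ?_⟩, ?_, ?_⟩
  · have h2 := hp2 k
    have h3 := hp1 (k + 1)
    push_cast at h3
    linarith [hed k, hed (k + 1)]
  · have h2 := hp1 k
    have h3 := hp2 (k + 1)
    push_cast at h3
    linarith [he0 k, he0 (k + 1)]
  · intro k l hkl
    rcases lt_or_gt_of_ne hkl with h | h
    · exact hdis k l h
    · exact (hdis l k h).symm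
  · obtain ⟨M, hM⟩ := hZ.isBounded.subset_closedBall 0
    obtain ⟨N, hN⟩ := exists_nat_gt (M / (2 * d) + 2)
    refine ⟨N, fun z hz => ?_⟩
    have hzM : |z| ≤ M := by
      have := hM hz
      rwa [mem_closedBall, dist_zero_right, Real.norm_eq_abs] at this
    rw [abs_le] at hzM
    have h2d : (0 : ℝ) < 2 * d := by linarith
    set k := ⌊z / (2 * d)⌋ with hk
    have hk1 : (k : ℝ) * (2 * d) ≤ z := (le_div_iff₀ h2d).1 (Int.floor_le _)
    have hk2 : z < ((k : ℝ) + 1) * (2 * d) := (div_lt_iff₀ h2d).1 (Int.lt_floor_add_one _)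
    have hN' : M < ((N : ℝ) - 2) * (2 * d) := by
      have : M / (2 * d) < (N : ℝ) - 2 := by linarith
      rwa [div_lt_iff₀ h2d] at this
    have hkN : (k : ℝ) < N - 2 := by
      by_contra h
      push Not at h
      nlinarith
    have hkN' : -(N : ℝ) + 1 < k := by
      by_contra h
      push Not at h
      nlinarith
    have hkN1 : k < (N : ℤ) - 2 := by exact_mod_cast hkN
    have hkN2 : -(N : ℤ) + 1 < k := by exact_mod_cast hkN'
    have hcase : ∀ j : ℤ, p j ≤ z → z < p (j + 1) → z ∈ Icc (p j + e j) (p (j + 1) - e (j + 1)) := by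
      intro j hj1 hj2
      have h3 := heZ j z hz
      have h4 := heZ (j + 1) z hz
      rw [abs_of_nonneg (by linarith)] at h3
      rw [abs_of_neg (by linarith)] at h4
      constructor <;> linarith
    by_cases h : p k ≤ z
    · refine ⟨k, ?_, hcase k h ?_⟩
      · rw [Finset.mem_Icc]
        constructor <;> linarith
      · have h3 := hp1 (k + 1)
        push_cast at h3
        nlinarith
    · push Not at h
      refine ⟨k - 1, ?_, hcase (k - 1) ?_ ?_⟩
      · rw [Finset.mem_Icc]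
        constructor <;> linarith
      · have h3 := hp2 (k - 1)
        push_cast at h3
        nlinarith
      · rw [sub_add_cancel]
        exact h

/-- The coordinate box `∏ [a i, b i]`. -/
def box {n : ℕ} (a b : Fin n → ℝ) : Set (EuclideanSpace ℝ (Fin n)) :=
  {x | ∀ i, x i ∈ Icc (a i) (b i)}

theorem box_closed {n : ℕ} (a b : Fin n → ℝ) : IsClosed (box a b) := by
  have h1 : box a b = ⋂ i, (fun x : EuclideanSpace ℝ (Fin n) => x i) ⁻¹' Icc (a i) (b i) := by
    ext x
    simp [box]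
  rw [h1]
  refine isClosed_iInter fun i => isClosed_Icc.preimage ?_
  exact (EuclideanSpace.proj (𝕜 := ℝ) i).continuous

theorem box_convex {n : ℕ} (a b : Fin n → ℝ) : Convex ℝ (box a b) := by
  intro x hx y hy s t hs ht hst i
  have := convex_Icc (a i) (b i) (hx i) (hy i) hs ht hst
  simpa using this

theorem box_dist {n : ℕ} {a b : Fin n → ℝ} {d : ℝ} (hd : 0 ≤ d) (h : ∀ i, b i - a i ≤ d)
    {x y : EuclideanSpace ℝ (Fin n)} (hx : x ∈ box a b) (hy : y ∈ box a b) : dist x y ≤ n * d := by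
  rw [EuclideanSpace.dist_eq]
  apply Real.sqrt_le_iff.2
  refine ⟨by positivity, ?_⟩
  have h1 : ∀ i ∈ (Finset.univ : Finset (Fin n)), dist (x i) (y i) ^ 2 ≤ d ^ 2 := by
    intro i _
    have h2 : dist (x i) (y i) ≤ d := by
      rw [Real.dist_eq, abs_le]
      have := hx i
      have := hy i
      have := h i
      simp only [mem_Icc] at *
      constructor <;> linarith
    exact pow_le_pow_left₀ dist_nonneg h2 2
  refine (Finset.sum_le_card_nsmul _ _ _ h1).trans ?_
  rw [Finset.card_univ, Fintype.card_fin, nsmul_eq_mul, mul_pow]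
  rcases Nat.eq_zero_or_pos n with h0 | h0
  · rw [h0]
    simp
  · have h2 : (1 : ℝ) ≤ n := by exact_mod_cast h0
    have h3 : (0 : ℝ) ≤ d ^ 2 := by positivity
    have h4 : (n : ℝ) ≤ (n : ℝ) ^ 2 := by nlinarith
    exact mul_le_mul_of_nonneg_right h4 h3

theorem box_compact {n : ℕ} (a b : Fin n → ℝ) : IsCompact (box a b) := by
  refine Metric.isCompact_of_isClosed_isBounded (box_closed a b) (Metric.isBounded_iff.2 ?_)
  refine ⟨n * ∑ i, |b i - a i|, fun x hx y hy => ?_⟩
  refine box_dist (Finset.sum_nonneg fun i _ => abs_nonneg _) (fun i => ?_) hx hy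
  exact (le_abs_self _).trans (Finset.single_le_sum (f := fun i => |b i - a i|)
    (fun j _ => abs_nonneg _) (Finset.mem_univ i))

theorem exists_boxes {n : ℕ} {Z : Set (EuclideanSpace ℝ (Fin n))} (hZ : IsCompact Z)
    (hZi : ∀ i, interior ((fun x : EuclideanSpace ℝ (Fin n) => x i) '' Z) = ∅) {d : ℝ}
    (hd : 0 < d) : ∃ 𝒬 : Set (Set (EuclideanSpace ℝ (Fin n))), 𝒬.Finite ∧
      𝒬.PairwiseDisjoint id ∧ (∀ Q ∈ 𝒬, IsCompact Q ∧ Convex ℝ Q ∧ Q.Nonempty ∧ diam Q < d) ∧
      Z ⊆ ⋃₀ 𝒬 := by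
  classical
  have h1 : ∀ i, IsCompact ((fun x : EuclideanSpace ℝ (Fin n) => x i) '' Z) := fun i =>
    hZ.image (EuclideanSpace.proj (𝕜 := ℝ) i).continuous
  set d' : ℝ := d / (3 * (n + 1)) with hd'
  have hd'0 : 0 < d' := by positivity
  have hdd : 3 * d' * (n + 1) = d := by
    rw [hd']
    field_simp
  choose a b hab hdis N hN using fun i => exists_intervals (h1 i) (hZi i) hd'0
  set F : (Fin n → ℤ) → Set (EuclideanSpace ℝ (Fin n)) := fun φ =>
    box (fun i => a i (φ i)) (fun i => b i (φ i)) with hF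
  set S : Finset (Fin n → ℤ) := Fintype.piFinset fun i => Finset.Icc (-(N i : ℤ)) (N i) with hS
  refine ⟨F '' S, S.finite_toSet.image F, ?_, ?_, ?_⟩
  · rintro _ ⟨φ, _, rfl⟩ _ ⟨ψ, _, rfl⟩ hne
    have h2 : φ ≠ ψ := fun h => hne (by rw [h])
    obtain ⟨i, hi⟩ := Function.ne_iff.1 h2
    rw [Function.onFun, id, id, Set.disjoint_left]
    intro x hx hx'
    exact (Set.disjoint_left.1 (hdis i (φ i) (ψ i) hi)) (hx i) (hx' i)
  · rintro _ ⟨φ, _, rfl⟩
    refine ⟨box_compact _ _, box_convex _ _, ⟨WithLp.toLp 2 (fun i => a i (φ i)), fun i => ?_⟩, ?_⟩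
    · exact ⟨le_refl _, (hab i (φ i)).1⟩
    · refine lt_of_le_of_lt (diam_le_of_forall_dist_le (C := n * (3 * d')) (by positivity) ?_) ?_
      · intro x hx y hy
        exact box_dist (by positivity) (fun i => (hab i (φ i)).2.le) hx hy
      · nlinarith
  · intro z hz
    have h2 : ∀ i, ∃ k ∈ Finset.Icc (-(N i : ℤ)) (N i), z i ∈ Icc (a i k) (b i k) := fun i =>
      hN i (z i) (mem_image_of_mem _ hz)
    choose φ hφ hφz using h2
    refine ⟨F φ, ⟨φ, ?_, rfl⟩, hφz⟩
    rw [hS, Finset.mem_coe, Fintype.mem_piFinset]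
    exact hφ

end Pool.Agent.TopCells
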