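import Pool.Agent.Lib.MP_4f753b_an.E1

/-! Row E2: small sets of bad points in Euclidean space. -/

open Set Metric Filter Module MeasureTheory
open scoped ContDiff Topology RealInnerProductSpace

namespace Pool.Agent.TopCells

variable {n : ℕ}

theorem interior_proj_of_null {Z : Set (EuclideanSpace ℝ (Fin n))} (hZ : μH[1] Z = 0) (i : Fin n) :
    interior ((fun x : EuclideanSpace ℝ (Fin n) => x i) '' Z) = ∅ := by
  have h1 : LipschitzWith 1 (fun x : EuclideanSpace ℝ (Fin n) => x i) := by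
    refine LipschitzWith.of_dist_le_mul fun x y => ?_
    rw [NNReal.coe_one, one_mul, dist_eq_norm, dist_eq_norm]
    exact PiLp.norm_apply_le (x - y) i
  have h2 := h1.hausdorffMeasure_image_le (d := 1) zero_le_one Z
  rw [hZ, mul_zero, hausdorffMeasure_real] at h2
  exact Measure.interior_eq_empty_of_null (nonpos_iff_eq_zero.1 h2)

/-- Finitely many small disjoint cells. -/
theorem approx_of_bad (hn : 2 ≤ n) (f : EuclideanSpace ℝ (Fin n) ≃ₜ EuclideanSpace ℝ (Fin n))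
    (H : ∀ R : ℝ, 0 < R → ∀ d : ℝ, 0 < d →
      ∃ h : EuclideanSpace ℝ (Fin n) ≃ₜ EuclideanSpace ℝ (Fin n),
      (∀ x ∈ closedBall (0 : EuclideanSpace ℝ (Fin n)) R, dist (h x) (f x) < d) ∧
      ((∀ i, interior ((fun x : EuclideanSpace ℝ (Fin n) => x i) ''
        {x | x ∈ closedBall (0 : EuclideanSpace ℝ (Fin n)) R ∧ ¬ LD h x}) = ∅) ∨
      ∃ 𝒬 : Set (Set (EuclideanSpace ℝ (Fin n))), 𝒬.Finite ∧ 𝒬.PairwiseDisjoint id ∧
        (∀ Q ∈ 𝒬, (IsCompact Q ∧ (Convex ℝ Q ∨ Cellular Q)) ∧ diam Q < d) ∧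
        {x | x ∈ closedBall (0 : EuclideanSpace ℝ (Fin n)) R ∧ ¬ LD h x} ⊆ ⋃₀ 𝒬)) :
    Approx f := by
  apply approx_of_pieces f
  · rw [finrank_euclideanSpace_fin]
    omega
  intro R hR d hd
  obtain ⟨h, h1, h2⟩ := H R hR d hd
  obtain ⟨𝒬, h3, h4, h5, h6⟩ : ∃ 𝒬 : Set (Set (EuclideanSpace ℝ (Fin n))), 𝒬.Finite ∧
      𝒬.PairwiseDisjoint id ∧ (∀ Q ∈ 𝒬, (IsCompact Q ∧ (Convex ℝ Q ∨ Cellular Q)) ∧ diam Q < d) ∧
      {x | x ∈ closedBall (0 : EuclideanSpace ℝ (Fin n)) R ∧ ¬ LD h x} ⊆ ⋃₀ 𝒬 := by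
    rcases h2 with h2 | h2
    · have h3 : IsCompact {x | x ∈ closedBall (0 : EuclideanSpace ℝ (Fin n)) R ∧ ¬ LD h x} :=
        (isCompact_closedBall _ _).inter_right (isOpen_LD h).isClosed_compl
      obtain ⟨𝒬, h4, h5, h6, h7⟩ := exists_boxes h3 h2 hd
      exact ⟨𝒬, h4, h5, fun Q hQ => ⟨⟨(h6 Q hQ).1, Or.inl (h6 Q hQ).2.1⟩, (h6 Q hQ).2.2.2⟩, h7⟩
    · exact h2
  refine ⟨h, 𝒬 \ {∅}, h3.subset sdiff_subset, h4.subset sdiff_subset, ?_, ?_⟩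
  · intro Q hQ
    obtain ⟨⟨h7, h8⟩, h9⟩ := h5 Q hQ.1
    refine ⟨?_, h9⟩
    rcases h8 with h8 | h8
    · exact cellular_of_convex h7 h8 (nonempty_iff_ne_empty.2 hQ.2)
    · exact h8
  · intro x hx
    refine ⟨h1 x hx, fun hxQ => ?_⟩
    by_contra h7
    obtain ⟨Q, hQ, hxQ'⟩ := h6 ⟨hx, h7⟩
    exact hxQ ⟨Q, ⟨hQ, fun h8 => by
      rw [mem_singleton_iff] at h8
      rw [h8] at hxQ'
      exact hxQ'⟩, hxQ'⟩

end Pool.Agent.TopCells
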